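import Pool.Agent.TFE.Defs

/-! # TFE/Low: lower bound for the long window

For `p ∈ pr P` and `y = e^u / p ∈ [3A/2, 20A]` the integers `a` in `[y, y (1 + s1)] ⊆ [A, 32A)`, `s1 = A^(-1/2)`, have
`|log a + log p - u| ≤ s1`; there are at least `s1 y - 1 ≥ A^(1/2)` of them, each contributes
`e^{-1/2} ≥ 1/2`. -/

set_option autoImplicit false

open Finset

namespace Pool.Agent.TFE

private theorem low_inner (A P p : ℕ) (u r : ℝ) (hr : 4 ≤ r) (hrr : r * r = A)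
    (hp : p ∈ pr P) (h1 : 6 * (A : ℝ) * P ≤ Real.exp u) (h2 : Real.exp u ≤ 20 * (A : ℝ) * P) :
    r / 2 ≤ ∑ a ∈ Ico A (32 * A),
      Real.exp (-(u - (Real.log (a : ℝ) + Real.log (p : ℝ))) ^ 2 / (2 * (r⁻¹) ^ 2)) := by
  have hr0 : 0 < r := by linarith
  have hA16 : (16 : ℝ) ≤ A := by rw [← hrr]; nlinarith
  have hA0 : (0 : ℝ) < A := by linarith
  rw [pr, mem_filter, mem_Ioc] at hp
  obtain ⟨⟨hp1, hp2⟩, -⟩ := hp
  have hp1' : (P : ℝ) < p := by exact_mod_cast hp1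
  have hp2' : (p : ℝ) ≤ 4 * P := by exact_mod_cast hp2
  have hP0 : (0 : ℝ) ≤ P := Nat.cast_nonneg _
  have hp0 : (0 : ℝ) < p := by linarith
  set y : ℝ := Real.exp u / p with hy
  have hy0 : 0 < y := div_pos (Real.exp_pos u) hp0
  have hylow : 3 / 2 * (A : ℝ) ≤ y := by
    rw [hy, le_div_iff₀ hp0]
    calc 3 / 2 * (A : ℝ) * p ≤ 3 / 2 * (A : ℝ) * (4 * P) :=
          mul_le_mul_of_nonneg_left hp2' (by positivity)
      _ = 6 * (A : ℝ) * P := by ring
      _ ≤ _ := h1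
  have hyup : y ≤ 20 * A := by
    rw [hy, div_le_iff₀ hp0]
    calc Real.exp u ≤ 20 * (A : ℝ) * P := h2
      _ ≤ 20 * A * p := mul_le_mul_of_nonneg_left hp1'.le (by positivity)
  have hlogy : Real.log y = u - Real.log p := by
    rw [hy, Real.log_div (Real.exp_pos u).ne' hp0.ne', Real.log_exp]
  set m : ℕ := ⌊y * r⁻¹⌋₊ with hm
  have hmle : (m : ℝ) ≤ y * r⁻¹ := Nat.floor_le (by positivity)
  have hmge : y * r⁻¹ - 1 < m := Nat.sub_one_lt_floor _
  have hrinv : r⁻¹ ≤ 1 / 4 := by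
    rw [inv_le_comm₀ hr0 (by norm_num)]
    norm_num
    exact hr
  have hrm : r ≤ m := by
    have h3 : 3 / 2 * r ≤ y * r⁻¹ := by
      rw [← div_eq_mul_inv, le_div_iff₀ hr0, mul_assoc, hrr]
      exact hylow
    linarith
  have hceil : (⌈y⌉₊ : ℝ) < y + 1 := Nat.ceil_lt_add_one hy0.le
  have hceil' : y ≤ (⌈y⌉₊ : ℝ) := Nat.le_ceil y
  set T : Finset ℕ := (range m).image (fun i => ⌈y⌉₊ + i) with hT
  have hTcard : T.card = m := by
    rw [hT, card_image_of_injective _ (fun i j h => Nat.add_left_cancel h), card_range]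
  have hTb : ∀ a ∈ T, y ≤ (a : ℝ) ∧ (a : ℝ) ≤ y * (1 + r⁻¹) := by
    intro a ha
    rw [hT, mem_image] at ha
    obtain ⟨i, hi, rfl⟩ := ha
    rw [mem_range] at hi
    have hi' : (i : ℝ) + 1 ≤ m := by exact_mod_cast hi
    have hi0 : (0 : ℝ) ≤ i := Nat.cast_nonneg _
    push_cast
    constructor
    · linarith
    · have : y * (1 + r⁻¹) = y + y * r⁻¹ := by ring
      linarith
  have hTsub : T ⊆ Ico A (32 * A) := by
    intro a ha
    obtain ⟨ha1, ha2⟩ := hTb a ha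
    rw [mem_Ico]
    constructor
    · have h3 : (A : ℝ) ≤ a := by linarith
      exact_mod_cast h3
    · have h3 : y * (1 + r⁻¹) ≤ 20 * A * (5 / 4) :=
        mul_le_mul hyup (by linarith) (by positivity) (by positivity)
      have h4 : (a : ℝ) < 32 * A := by linarith
      exact_mod_cast h4
  have hterm : ∀ a ∈ T, (1 / 2 : ℝ) ≤
      Real.exp (-(u - (Real.log (a : ℝ) + Real.log (p : ℝ))) ^ 2 / (2 * (r⁻¹) ^ 2)) := by
    intro a ha
    obtain ⟨ha1, ha2⟩ := hTb a ha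
    have ha0 : (0 : ℝ) < a := by linarith
    have h3 : Real.log y ≤ Real.log a := Real.log_le_log hy0 ha1
    have h4 : Real.log a ≤ Real.log y + r⁻¹ := by
      have h5 := Real.log_le_log ha0 ha2
      rw [Real.log_mul hy0.ne' (by positivity)] at h5
      have h6 : Real.log (1 + r⁻¹) ≤ r⁻¹ := by
        have := Real.log_le_sub_one_of_pos (show 0 < 1 + r⁻¹ by positivity)
        linarith
      linarith
    have h5 : (u - (Real.log (a : ℝ) + Real.log (p : ℝ))) ^ 2 ≤ (r⁻¹) ^ 2 := by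
      apply sq_le_sq'
      · linarith
      · have : 0 < r⁻¹ := by positivity
        linarith
    have h6 : -(1 / 2 : ℝ) ≤
        -(u - (Real.log (a : ℝ) + Real.log (p : ℝ))) ^ 2 / (2 * (r⁻¹) ^ 2) := by
      rw [le_div_iff₀ (by positivity)]
      linarith
    have h7 := Real.add_one_le_exp (-(1 / 2 : ℝ))
    have h8 := Real.exp_le_exp.2 h6
    linarith
  calc r / 2 ≤ (m : ℝ) * (1 / 2) := by linarith
    _ = ∑ a ∈ T, (1 / 2 : ℝ) := by rw [sum_const, hTcard, nsmul_eq_mul]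
    _ ≤ ∑ a ∈ T, Real.exp (-(u - (Real.log (a : ℝ) + Real.log (p : ℝ))) ^ 2 /
          (2 * (r⁻¹) ^ 2)) := sum_le_sum hterm
    _ ≤ _ := sum_le_sum_of_subset_of_nonneg hTsub fun _ _ _ => (Real.exp_pos _).le

theorem w_long : ∃ A0 : ℕ, ∀ A P : ℕ, A0 ≤ A → 1 ≤ P → ∀ u : ℝ,
    6 * (A : ℝ) * P ≤ Real.exp u → Real.exp u ≤ 20 * (A : ℝ) * P →
    (A : ℝ) * (pr P).card / 4 ≤ gw (pairs A P) lg ((A : ℝ) ^ (-(1 / 2) : ℝ)) u := by
  refine ⟨16, fun A P hA _ u h1 h2 => ?_⟩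
  have hA16 : (16 : ℝ) ≤ A := by exact_mod_cast hA
  have hA0 : (0 : ℝ) ≤ A := by linarith
  have hr : 4 ≤ Real.sqrt A := by
    apply Real.le_sqrt_of_sq_le
    linarith
  have hrr : Real.sqrt A * Real.sqrt A = A := Real.mul_self_sqrt hA0
  have hs : (A : ℝ) ^ (-(1 / 2) : ℝ) = (Real.sqrt A)⁻¹ := by
    rw [Real.rpow_neg hA0, Real.sqrt_eq_rpow]
  rw [hs, gw, pairs, sum_product_right, one_div, inv_inv]
  have h3 : ((pr P).card : ℝ) * (Real.sqrt A / 2) ≤ ∑ p ∈ pr P, ∑ a ∈ Ico A (32 * A),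
      Real.exp (-(u - lg (a, p)) ^ 2 / (2 * ((Real.sqrt A)⁻¹) ^ 2)) := by
    rw [← nsmul_eq_mul]
    exact card_nsmul_le_sum _ _ _ fun p hp => low_inner A P p u _ hr hrr hp h1 h2
  calc (A : ℝ) * (pr P).card / 4 ≤ (A : ℝ) * (pr P).card / 2 := by
        have : 0 ≤ (A : ℝ) * (pr P).card := by positivity
        linarith
    _ = Real.sqrt A * (((pr P).card : ℝ) * (Real.sqrt A / 2)) := by
        have h4 : Real.sqrt A * (((pr P).card : ℝ) * (Real.sqrt A / 2)) =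
            (Real.sqrt A * Real.sqrt A) * (pr P).card / 2 := by ring
        rw [h4, hrr]
    _ ≤ _ := mul_le_mul_of_nonneg_left h3 (by positivity)

end Pool.Agent.TFE
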