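import Pool.Agent.TFE.Defs

/-! # TFE/Ltwo: exact L2 identity for differences of Gaussian counts

Both sides are finite double sums over `(i, j)`, `d = x i - x j`:
`∫ e^{-(u-x)²/2a²} e^{-(u-y)²/2b²} du = √(2π) (ab/√(a²+b²)) e^{-(x-y)²/(2(a²+b²))}` and
`∫ e^{-c t²} cos (t d) dt = √(π/c) e^{-d²/(4c)}` (Mathlib: `fourierIntegral_gaussian`, `integral_gaussian`).
`‖∑ e^{i t x j}‖² = ∑_{i,j} cos (t (x i - x j))`. -/

set_option autoImplicit false

open Finset MeasureTheory

namespace Pool.Agent.TFE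

/-- the Fourier transform of a Gaussian, real form -/
private theorem lt_gauss (c d : ℝ) (hc : 0 < c) :
    Integrable (fun t : ℝ => Real.exp (-c * t ^ 2) * Real.cos (t * d)) ∧
    ∫ t : ℝ, Real.exp (-c * t ^ 2) * Real.cos (t * d) =
      √(Real.pi / c) * Real.exp (-d ^ 2 / (4 * c)) := by
  have hre : ∀ t : ℝ, (Complex.exp (Complex.I * (d : ℂ) * (t : ℂ)) *
      Complex.exp (-(c : ℂ) * (t : ℂ) ^ 2)).re = Real.exp (-c * t ^ 2) * Real.cos (t * d) := by
    intro t
    have h1 : Complex.exp (-(c : ℂ) * (t : ℂ) ^ 2) = ((Real.exp (-c * t ^ 2) : ℝ) : ℂ) := by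
      push_cast
      rfl
    have h2 : Complex.I * (d : ℂ) * (t : ℂ) = ((t * d : ℝ) : ℂ) * Complex.I := by
      push_cast
      ring
    rw [h1, h2, Complex.re_mul_ofReal, Complex.exp_ofReal_mul_I_re]
    ring
  have hi : Integrable (fun t : ℝ => Complex.exp (Complex.I * (d : ℂ) * (t : ℂ)) *
      Complex.exp (-(c : ℂ) * (t : ℂ) ^ 2)) := by
    refine (integrable_exp_neg_mul_sq hc).mono' ?_ (Filter.Eventually.of_forall fun t => ?_)
    · refine Continuous.aestronglyMeasurable ?_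
      fun_prop
    · have h1 : Complex.exp (-(c : ℂ) * (t : ℂ) ^ 2) = ((Real.exp (-c * t ^ 2) : ℝ) : ℂ) := by
        push_cast
        rfl
      have h2 : Complex.I * (d : ℂ) * (t : ℂ) = ((t * d : ℝ) : ℂ) * Complex.I := by
        push_cast
        ring
      rw [norm_mul, h1, h2, Complex.norm_exp_ofReal_mul_I, one_mul, Complex.norm_real,
        Real.norm_eq_abs, abs_of_pos (Real.exp_pos _)]
  have he := fourierIntegral_gaussian (b := (c : ℂ)) (by simpa using hc) (d : ℂ)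
  have hr := integral_re hi
  simp only [RCLike.re_eq_complex_re] at hr
  constructor
  · refine (hi.re).congr (Filter.Eventually.of_forall fun t => ?_)
    simp only [RCLike.re_eq_complex_re]
    exact hre t
  · have h3 : ∫ t : ℝ, Real.exp (-c * t ^ 2) * Real.cos (t * d) =
        ∫ t : ℝ, (Complex.exp (Complex.I * (d : ℂ) * (t : ℂ)) *
          Complex.exp (-(c : ℂ) * (t : ℂ) ^ 2)).re :=
      integral_congr_ae (Filter.Eventually.of_forall fun t => (hre t).symm)
    rw [h3, hr, he]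
    have h4 : ((Real.pi : ℂ) / (c : ℂ)) ^ (1 / 2 : ℂ) = ((√(Real.pi / c) : ℝ) : ℂ) := by
      rw [Real.sqrt_eq_rpow, Complex.ofReal_cpow (by positivity)]
      push_cast
      rfl
    have h5 : Complex.exp (-(d : ℂ) ^ 2 / (4 * (c : ℂ))) =
        ((Real.exp (-d ^ 2 / (4 * c)) : ℝ) : ℂ) := by
      push_cast
      rfl
    rw [h4, h5, ← Complex.ofReal_mul, Complex.ofReal_re]

/-- one pair -/
private theorem lt_pair {a b : ℝ} (ha : 0 < a) (hb : 0 < b) (x y : ℝ) :
    Integrable (fun u : ℝ => (1 / a * Real.exp (-(u - x) ^ 2 / (2 * a ^ 2))) *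
      (1 / b * Real.exp (-(u - y) ^ 2 / (2 * b ^ 2)))) ∧
    Integrable (fun t : ℝ => Real.exp (-(a * t) ^ 2 / 2) * Real.exp (-(b * t) ^ 2 / 2) *
      Real.cos (t * x - t * y)) ∧
    ∫ u : ℝ, (1 / a * Real.exp (-(u - x) ^ 2 / (2 * a ^ 2))) *
      (1 / b * Real.exp (-(u - y) ^ 2 / (2 * b ^ 2))) =
    ∫ t : ℝ, Real.exp (-(a * t) ^ 2 / 2) * Real.exp (-(b * t) ^ 2 / 2) *
      Real.cos (t * x - t * y) := by
  have hab : 0 < a ^ 2 + b ^ 2 := by positivity
  have hc : 0 < (a ^ 2 + b ^ 2) / 2 := by positivity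
  obtain ⟨hg1, hg2⟩ := lt_gauss ((a ^ 2 + b ^ 2) / 2) (x - y) hc
  have ht : ∀ t : ℝ, Real.exp (-(a * t) ^ 2 / 2) * Real.exp (-(b * t) ^ 2 / 2) *
      Real.cos (t * x - t * y) =
      Real.exp (-((a ^ 2 + b ^ 2) / 2) * t ^ 2) * Real.cos (t * (x - y)) := by
    intro t
    rw [← Real.exp_add, mul_sub]
    congr 2
    ring
  set C : ℝ := (a ^ 2 + b ^ 2) / (2 * a ^ 2 * b ^ 2) with hC
  have hC0 : 0 < C := by positivity
  set m : ℝ := (b ^ 2 * x + a ^ 2 * y) / (a ^ 2 + b ^ 2) with hm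
  have hu : ∀ u : ℝ, (1 / a * Real.exp (-(u - x) ^ 2 / (2 * a ^ 2))) *
      (1 / b * Real.exp (-(u - y) ^ 2 / (2 * b ^ 2))) =
      (1 / (a * b) * Real.exp (-(x - y) ^ 2 / (2 * (a ^ 2 + b ^ 2)))) *
        Real.exp (-C * (u - m) ^ 2) := by
    intro u
    have h1 : (1 / a * Real.exp (-(u - x) ^ 2 / (2 * a ^ 2))) *
      (1 / b * Real.exp (-(u - y) ^ 2 / (2 * b ^ 2))) = 1 / (a * b) *
        Real.exp (-(u - x) ^ 2 / (2 * a ^ 2) + -(u - y) ^ 2 / (2 * b ^ 2)) := by
      rw [Real.exp_add]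
      field_simp
    have h2 : -(u - x) ^ 2 / (2 * a ^ 2) + -(u - y) ^ 2 / (2 * b ^ 2) =
        -(x - y) ^ 2 / (2 * (a ^ 2 + b ^ 2)) + -C * (u - m) ^ 2 := by
      rw [hC, hm]
      field_simp
      ring
    rw [h1, h2, Real.exp_add, mul_assoc]
  have hgi : Integrable (fun u : ℝ => Real.exp (-C * (u - m) ^ 2)) :=
    (integrable_exp_neg_mul_sq hC0).comp_sub_right m
  have hgv : ∫ u : ℝ, Real.exp (-C * (u - m) ^ 2) = √(Real.pi / C) := by
    rw [integral_sub_right_eq_self (fun u : ℝ => Real.exp (-C * u ^ 2)) m]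
    exact integral_gaussian C
  refine ⟨?_, ?_, ?_⟩
  · refine (hgi.const_mul (1 / (a * b) * Real.exp (-(x - y) ^ 2 / (2 * (a ^ 2 + b ^ 2))))).congr
      (Filter.Eventually.of_forall fun u => ?_)
    exact (hu u).symm
  · refine hg1.congr (Filter.Eventually.of_forall fun t => ?_)
    exact (ht t).symm
  · have e1 := integral_congr_ae (μ := volume) (Filter.Eventually.of_forall hu)
    have e2 := integral_congr_ae (μ := volume) (Filter.Eventually.of_forall ht)
    rw [e1, e2, hg2, integral_const_mul, hgv]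
    have h3 : √(Real.pi / C) = a * b * √(Real.pi / ((a ^ 2 + b ^ 2) / 2)) := by
      have h4 : Real.pi / C = (a * b) ^ 2 * (Real.pi / ((a ^ 2 + b ^ 2) / 2)) := by
        rw [hC]
        field_simp
      rw [h4, Real.sqrt_mul (by positivity), Real.sqrt_sq (by positivity)]
    have h5 : -(x - y) ^ 2 / (4 * ((a ^ 2 + b ^ 2) / 2)) = -(x - y) ^ 2 / (2 * (a ^ 2 + b ^ 2)) := by
      congr 1
      ring
    rw [h3, h5]
    field_simp

theorem l2 {ι : Type} (S : Finset ι) (x : ι → ℝ) {s s1 : ℝ} (hs : 0 < s) (hs1 : 0 < s1) :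
    Integrable (fun u : ℝ => (gw S x s u - gw S x s1 u) ^ 2) ∧
    ∫ u : ℝ, (gw S x s u - gw S x s1 u) ^ 2 =
      ∫ t : ℝ, gf s s1 t * ‖∑ j ∈ S, Complex.exp (((t * x j : ℝ) : ℂ) * Complex.I)‖ ^ 2 := by
  set E : ℝ → ι → ℝ → ℝ := fun a i u => 1 / a * Real.exp (-(u - x i) ^ 2 / (2 * a ^ 2)) with hE
  set G : ℝ → ℝ → ι → ι → ℝ → ℝ := fun a b i j t =>
    Real.exp (-(a * t) ^ 2 / 2) * Real.exp (-(b * t) ^ 2 / 2) *
      Real.cos (t * x i - t * x j) with hG
  have hu : ∀ u : ℝ, (gw S x s u - gw S x s1 u) ^ 2 = ∑ i ∈ S, ∑ j ∈ S,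
      (E s i u * E s j u - E s i u * E s1 j u - E s1 i u * E s j u + E s1 i u * E s1 j u) := by
    intro u
    have h1 : gw S x s u - gw S x s1 u = ∑ i ∈ S, (E s i u - E s1 i u) := by
      rw [gw, gw, Finset.mul_sum, Finset.mul_sum, ← Finset.sum_sub_distrib]
    rw [h1, sq, Finset.sum_mul_sum]
    refine Finset.sum_congr rfl fun i _ => Finset.sum_congr rfl fun j _ => ?_
    ring
  have ht : ∀ t : ℝ, gf s s1 t * ‖∑ j ∈ S, Complex.exp (((t * x j : ℝ) : ℂ) * Complex.I)‖ ^ 2 =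
      ∑ i ∈ S, ∑ j ∈ S, (G s s i j t - G s s1 i j t - G s1 s i j t + G s1 s1 i j t) := by
    intro t
    have h1 : ‖∑ j ∈ S, Complex.exp (((t * x j : ℝ) : ℂ) * Complex.I)‖ ^ 2 =
        ∑ i ∈ S, ∑ j ∈ S, Real.cos (t * x i - t * x j) := by
      rw [← Complex.normSq_eq_norm_sq, Complex.normSq_apply, Complex.re_sum, Complex.im_sum]
      simp only [Complex.exp_ofReal_mul_I_re, Complex.exp_ofReal_mul_I_im]
      rw [Finset.sum_mul_sum, Finset.sum_mul_sum, ← Finset.sum_add_distrib]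
      refine Finset.sum_congr rfl fun i _ => ?_
      rw [← Finset.sum_add_distrib]
      refine Finset.sum_congr rfl fun j _ => ?_
      rw [Real.cos_sub]
    rw [h1, Finset.mul_sum]
    refine Finset.sum_congr rfl fun i _ => ?_
    rw [Finset.mul_sum]
    refine Finset.sum_congr rfl fun j _ => ?_
    rw [gf, hG]
    ring
  have key : ∀ i j, Integrable (fun u : ℝ => E s i u * E s j u - E s i u * E s1 j u -
      E s1 i u * E s j u + E s1 i u * E s1 j u) ∧
      Integrable (fun t : ℝ => G s s i j t - G s s1 i j t - G s1 s i j t + G s1 s1 i j t) ∧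
      ∫ u : ℝ, (E s i u * E s j u - E s i u * E s1 j u -
      E s1 i u * E s j u + E s1 i u * E s1 j u) =
      ∫ t : ℝ, (G s s i j t - G s s1 i j t - G s1 s i j t + G s1 s1 i j t) := by
    intro i j
    obtain ⟨a1, a2, a3⟩ := lt_pair hs hs (x i) (x j)
    obtain ⟨b1, b2, b3⟩ := lt_pair hs hs1 (x i) (x j)
    obtain ⟨c1, c2, c3⟩ := lt_pair hs1 hs (x i) (x j)
    obtain ⟨d1, d2, d3⟩ := lt_pair hs1 hs1 (x i) (x j)
    refine ⟨((a1.sub b1).sub c1).add d1, ((a2.sub b2).sub c2).add d2, ?_⟩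
    have e1 := integral_add ((a1.sub b1).sub c1) d1
    have e2 := integral_sub (a1.sub b1) c1
    have e3 := integral_sub a1 b1
    have f1 := integral_add ((a2.sub b2).sub c2) d2
    have f2 := integral_sub (a2.sub b2) c2
    have f3 := integral_sub a2 b2
    simp only [Pi.sub_apply] at e1 e2 e3 f1 f2 f3
    rw [hE, hG]
    simp only
    rw [e1, e2, e3, f1, f2, f3, a3, b3, c3, d3]
  constructor
  · refine (integrable_finsetSum S fun i _ => integrable_finsetSum S fun j _ =>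
      (key i j).1).congr (Filter.Eventually.of_forall fun u => ?_)
    exact (hu u).symm
  · rw [integral_congr_ae (μ := volume) (Filter.Eventually.of_forall hu),
      integral_congr_ae (μ := volume) (Filter.Eventually.of_forall ht)]
    rw [integral_finsetSum S fun i _ => integrable_finsetSum S fun j _ => (key i j).1,
      integral_finsetSum S fun i _ => integrable_finsetSum S fun j _ => (key i j).2.1]
    refine Finset.sum_congr rfl fun i _ => ?_
    rw [integral_finsetSum S fun j _ => (key i j).1, integral_finsetSum S fun j _ => (key i j).2.1]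
    exact Finset.sum_congr rfl fun j _ => (key i j).2.2

end Pool.Agent.TFE
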