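import Pool.Agent.TFE.Defs

set_option autoImplicit false

open Finset

namespace Pool.Agent.TFE

private theorem inside {n k X : ℕ} {a p u : ℝ} (ha : 0 < a) (hp : 0 < p) (hX0 : 12 ≤ X)
    (hX : X ≤ n) (hn : n < 2 * X)
    (hk : 12 ≤ k) (hkX : k ≤ X) (hu1 : (n : ℝ) + ((k + 2) / 3 : ℕ) ≤ Real.exp u)
    (hu2 : Real.exp u ≤ (n : ℝ) + ((k + 2) / 3 : ℕ) + 1)
    (h : |Real.log a + Real.log p - u| ≤ (k : ℝ) / (16 * X)) :
    (n : ℝ) < a * p ∧ a * p ≤ n + k := by
  have hXr : (12 : ℝ) ≤ X := by exact_mod_cast hX0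
  have hXn : (X : ℝ) ≤ n := by exact_mod_cast hX
  have hn2 : (n : ℝ) < 2 * X := by exact_mod_cast hn
  have hk1 : (12 : ℝ) ≤ k := by exact_mod_cast hk
  have hk2 : (k : ℝ) ≤ X := by exact_mod_cast hkX
  have m1 : (k : ℝ) ≤ 3 * ((k + 2) / 3 : ℕ) := by
    have : k ≤ 3 * ((k + 2) / 3) := by omega
    exact_mod_cast this
  have m2 : 3 * (((k + 2) / 3 : ℕ) : ℝ) ≤ k + 2 := by
    have : 3 * ((k + 2) / 3) ≤ k + 2 := by omega
    exact_mod_cast this
  set m : ℝ := (((k + 2) / 3 : ℕ) : ℝ) with hm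
  set w : ℝ := (k : ℝ) / (16 * X) with hw
  have hX0' : (0 : ℝ) < X := by linarith
  have hwX : w * X = k / 16 := by rw [hw]; field_simp
  have hw0 : 0 ≤ w := by rw [hw]; positivity
  have hw1 : w ≤ 1 / 16 := by
    rw [hw, div_le_div_iff₀ (by positivity) (by norm_num)]; linarith
  have hap : a * p = Real.exp u * Real.exp (Real.log a + Real.log p - u) := by
    rw [← Real.exp_add]
    rw [show u + (Real.log a + Real.log p - u) = Real.log a + Real.log p by ring, Real.exp_add,
      Real.exp_log ha, Real.exp_log hp]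
  obtain ⟨h1, h2⟩ := abs_le.1 h
  have e1 : 1 - w ≤ Real.exp (Real.log a + Real.log p - u) := by
    have := Real.add_one_le_exp (Real.log a + Real.log p - u)
    linarith
  have e2 : Real.exp (Real.log a + Real.log p - u) ≤ 1 + 2 * w := by
    refine (Real.exp_le_exp.2 h2).trans ?_
    have := Real.exp_bound_div_one_sub_of_interval hw0 (by linarith : w < 1)
    refine this.trans ?_
    rw [div_le_iff₀ (by linarith)]
    nlinarith
  set x := Real.exp u with hx
  have hx0 : 0 < x := Real.exp_pos u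
  have hx3 : x ≤ 3 * X := by nlinarith
  rw [hap]
  constructor
  · have : x * (1 - w) ≤ x * Real.exp (Real.log a + Real.log p - u) :=
      mul_le_mul_of_nonneg_left e1 hx0.le
    have h3 : x * w ≤ 3 * X * w := mul_le_mul_of_nonneg_right hx3 hw0
    nlinarith
  · have : x * Real.exp (Real.log a + Real.log p - u) ≤ x * (1 + 2 * w) :=
      mul_le_mul_of_nonneg_left e2 hx0.le
    have h3 : x * w ≤ 3 * X * w := mul_le_mul_of_nonneg_right hx3 hw0
    nlinarith

theorem short (A P X n k : ℕ) (s u : ℝ) (hA : 1 ≤ A) (hs : 0 < s) (hX : X ≤ n) (hn : n < 2 * X)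
    (hk : 12 ≤ k) (hkX : k ≤ X) (hu1 : (n : ℝ) + ((k + 2) / 3 : ℕ) ≤ Real.exp u)
    (hu2 : Real.exp u ≤ (n : ℝ) + ((k + 2) / 3 : ℕ) + 1) :
    s * gw (pairs A P) lg s u ≤ (hits A P n k).card +
      (pairs A P).card * Real.exp (-((k : ℝ) / (16 * X)) ^ 2 / (2 * s ^ 2)) := by
  classical
  have e : s * gw (pairs A P) lg s u =
      ∑ j ∈ pairs A P, Real.exp (-(u - lg j) ^ 2 / (2 * s ^ 2)) := by
    unfold gw
    rw [← mul_assoc, mul_one_div_cancel hs.ne', one_mul]
  rw [e]
  set w : ℝ := (k : ℝ) / (16 * X) with hw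
  have hw0 : 0 ≤ w := by rw [hw]; positivity
  have hpt : ∀ j ∈ pairs A P, Real.exp (-(u - lg j) ^ 2 / (2 * s ^ 2)) ≤
      (if j ∈ hits A P n k then 1 else 0) + Real.exp (-w ^ 2 / (2 * s ^ 2)) := by
    intro j hj
    by_cases hh : j ∈ hits A P n k
    · rw [if_pos hh]
      have h1 : Real.exp (-(u - lg j) ^ 2 / (2 * s ^ 2)) ≤ 1 := by
        rw [Real.exp_le_one_iff]
        apply div_nonpos_of_nonpos_of_nonneg _ (by positivity)
        nlinarith [sq_nonneg (u - lg j)]
      linarith [Real.exp_pos (-w ^ 2 / (2 * s ^ 2))]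
    · rw [if_neg hh, zero_add]
      apply Real.exp_le_exp.2
      apply div_le_div_of_nonneg_right _ (by positivity)
      have hj' := hj
      unfold pairs at hj'
      rw [mem_product, mem_Ico] at hj'
      have ha : 0 < j.1 := by omega
      have hp : 0 < j.2 := by
        have := hj'.2
        unfold pr at this
        exact (mem_filter.1 this).2.pos
      have har : (0 : ℝ) < j.1 := by exact_mod_cast ha
      have hpr : (0 : ℝ) < j.2 := by exact_mod_cast hp
      by_contra hcon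
      push Not at hcon
      have h2 : (u - lg j) ^ 2 < w ^ 2 := by linarith
      have h3 : |Real.log j.1 + Real.log j.2 - u| ≤ w := by
        have := abs_lt_of_sq_lt_sq h2 hw0
        rw [abs_sub_comm]
        exact this.le
      obtain ⟨h4, h5⟩ := inside har hpr (by omega) hX hn hk hkX hu1 hu2 h3
      apply hh
      unfold hits
      rw [mem_filter]
      exact ⟨hj, by exact_mod_cast h4, by exact_mod_cast h5⟩
  refine (sum_le_sum hpt).trans (le_of_eq ?_)
  rw [sum_add_distrib, sum_const, nsmul_eq_mul]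
  congr 1
  rw [← sum_filter, sum_const, nsmul_eq_mul, mul_one]
  congr 2
  ext j
  rw [mem_filter]
  constructor
  · exact fun h => h.2
  · intro h
    refine ⟨?_, h⟩
    unfold hits at h
    exact (mem_filter.1 h).1

end Pool.Agent.TFE
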