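import Pool.Agent.TFE.Gbd
import Pool.Agent.TFE.Low
import Pool.Agent.TFE.Sho
import Pool.Agent.TFE.Ltwo

/-! # TFE/Bad: the number of `n` with few hits, in terms of `A`, `P`, `s`

`m = (k+2)/3`.  The intervals `I_n = (log (n+m), log (n+m+1)]` are disjoint, of length `≥ 1/(3X)`, `e^u ≤ 3X ≤ 20 A P`
(`X < 6A(P+1)`, `P ≥ 18`) and `e^u ≥ X ≥ 6AP` on them.  For a bad `n` and `u ∈ I_n`: by `short`
`s W_s(u) ≤ hits + 1 ≤ s A |pr P|/8`, by `w_long` `W_long(u) ≥ A |pr P|/4`, so `(W_s - W_long)² ≥ (A |pr P|/8)²`;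
`l2` (with `∑_{q ∈ pairs} e^{i t lg q} = SA SP`), `g_bound`. -/

set_option autoImplicit false

open Finset MeasureTheory

namespace Pool.Agent.TFE

/-- the sum over the pairs is a product -/
theorem bad_sum (A P : ℕ) (t : ℝ) :
    ∑ q ∈ pairs A P, Complex.exp (((t * lg q : ℝ) : ℂ) * Complex.I) = SA A t * SP P t := by
  unfold pairs SA SP
  rw [Finset.sum_product, Finset.sum_mul_sum]
  refine Finset.sum_congr rfl fun a _ => Finset.sum_congr rfl fun p _ => ?_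
  rw [← Complex.exp_add]
  congr 1
  simp only [lg]
  push_cast
  ring

/-- lower bound for the integral over disjoint short intervals -/
theorem bad_int {G : ℝ → ℝ} (hG : Integrable G) (hG0 : ∀ u, 0 ≤ G u) (K : ℝ) (hK : 0 ≤ K)
    (E : Finset ℕ) (X m : ℕ) (hX : 1 ≤ X) (hE1 : ∀ n ∈ E, X ≤ n)
    (hE : ∀ n ∈ E, (n : ℝ) + m + 1 ≤ 3 * X)
    (hE2 : ∀ n ∈ E, ∀ u : ℝ, (n : ℝ) + m < Real.exp u → Real.exp u ≤ (n : ℝ) + m + 1 → K ≤ G u) :
    (E.card : ℝ) * (K / (3 * X)) ≤ ∫ u, G u := by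
  classical
  have hX' : (1 : ℝ) ≤ X := by exact_mod_cast hX
  have hpos : ∀ n ∈ E, (0 : ℝ) < (n : ℝ) + m := by
    intro n hn
    have h1 : (X : ℝ) ≤ n := by exact_mod_cast hE1 n hn
    have h2 : (0 : ℝ) ≤ m := Nat.cast_nonneg m
    linarith
  let I : ℕ → Set ℝ := fun n => Set.Ioc (Real.log ((n : ℝ) + m)) (Real.log ((n : ℝ) + m + 1))
  have hI : ∀ n ∈ E, ∀ u ∈ I n, (n : ℝ) + m < Real.exp u ∧ Real.exp u ≤ (n : ℝ) + m + 1 := by
    intro n hn u hu
    have h0 := hpos n hn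
    exact ⟨(Real.log_lt_iff_lt_exp h0).1 hu.1, (Real.le_log_iff_exp_le (by linarith)).1 hu.2⟩
  have hle : ∀ u, ∑ n ∈ E, (I n).indicator (fun _ => K) u ≤ G u := by
    intro u
    by_cases h : ∃ n ∈ E, u ∈ I n
    · obtain ⟨n, hn, hu⟩ := h
      rw [Finset.sum_eq_single n]
      · rw [Set.indicator_of_mem hu]
        obtain ⟨h1, h2⟩ := hI n hn u hu
        exact hE2 n hn u h1 h2
      · intro n' hn' hne
        apply Set.indicator_of_notMem
        intro hu'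
        obtain ⟨h1, h2⟩ := hI n hn u hu
        obtain ⟨h3, h4⟩ := hI n' hn' u hu'
        apply hne
        have h5 : (n' : ℝ) < n + 1 := by linarith
        have h6 : (n : ℝ) < n' + 1 := by linarith
        have h7 : n' < n + 1 := by exact_mod_cast h5
        have h8 : n < n' + 1 := by exact_mod_cast h6
        omega
      · intro h
        exact absurd hn h
    · push Not at h
      rw [Finset.sum_eq_zero fun n hn => Set.indicator_of_notMem (h n hn) _]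
      exact hG0 u
  have hint : ∀ n ∈ E, Integrable ((I n).indicator fun _ : ℝ => K) := by
    intro n _
    rw [integrable_indicator_iff measurableSet_Ioc]
    exact integrableOn_const (by simp [I])
  have h1 : ∫ u, ∑ n ∈ E, (I n).indicator (fun _ => K) u ≤ ∫ u, G u :=
    integral_mono (integrable_finset_sum _ hint) hG hle
  refine le_trans ?_ h1
  rw [integral_finset_sum _ hint, ← nsmul_eq_mul, ← Finset.sum_const]
  refine Finset.sum_le_sum fun n hn => ?_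
  rw [integral_indicator measurableSet_Ioc, setIntegral_const]
  have h0 := hpos n hn
  have hlen : 1 / (3 * (X : ℝ)) ≤ Real.log ((n : ℝ) + m + 1) - Real.log ((n : ℝ) + m) := by
    rw [← Real.log_div (by linarith) h0.ne']
    have h2 := Real.one_sub_inv_le_log_of_pos
      (show (0 : ℝ) < ((n : ℝ) + m + 1) / ((n : ℝ) + m) from div_pos (by linarith) h0)
    refine le_trans ?_ h2
    have h3 : 1 - (((n : ℝ) + m + 1) / ((n : ℝ) + m))⁻¹ = 1 / ((n : ℝ) + m + 1) := by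
      field_simp
      ring
    rw [h3]
    exact one_div_le_one_div_of_le (by linarith) (hE n hn)
  have hvol : (volume.real (I n)) = Real.log ((n : ℝ) + m + 1) - Real.log ((n : ℝ) + m) := by
    rw [Real.volume_real_Ioc_of_le]
    exact Real.log_le_log h0 (by linarith)
  rw [hvol, smul_eq_mul]
  calc K / (3 * X) = 1 / (3 * (X : ℝ)) * K := by ring
    _ ≤ _ := mul_le_mul_of_nonneg_right hlen hK

theorem bad (b : ℝ) (hb : 1 ≤ b) : ∃ (c C : ℝ) (A0 : ℕ), 0 < c ∧ 0 < C ∧ ∀ (X A P k : ℕ) (s : ℝ) (E : Finset ℕ),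
    A0 ≤ A → 1 ≤ A → 18 ≤ P → 6 * A * P ≤ X → X < 6 * A * (P + 1) → (P : ℝ) ≤ (A : ℝ) ^ b →
    12 ≤ k → k ≤ X → 0 < s → s ≤ (A : ℝ) ^ (-(1 / 2) : ℝ) → 1 ≤ s * P →
    ((pairs A P).card : ℝ) * Real.exp (-((k : ℝ) / (16 * X)) ^ 2 / (2 * s ^ 2)) ≤ 1 →
    (∀ n ∈ E, X ≤ n ∧ n < 2 * X ∧ ((hits A P n k).card : ℝ) + 1 ≤ s * (A * (pr P).card / 8)) →
    (E.card : ℝ) * ((pr P).card : ℝ) ^ 2 ≤ C * X * (P : ℝ) ^ 2 * (A : ℝ) ^ (-c) := by
  obtain ⟨c, C, hc, hC, hg⟩ := g_bound b hb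
  obtain ⟨A0, hA0⟩ := w_long
  refine ⟨c, 192 * C, A0, hc, by positivity, ?_⟩
  intro X A P k s E hAA0 hA hP hX1 hX2 hPb hk hkX hs hs1 hsP hexp hE
  have hApos : (0 : ℝ) < A := by exact_mod_cast hA
  have hs1pos : (0 : ℝ) < (A : ℝ) ^ (-(1 / 2) : ℝ) := Real.rpow_pos_of_pos hApos _
  obtain ⟨hint, hl2⟩ := l2 (pairs A P) lg hs hs1pos
  have hX12 : 12 ≤ X := hk.trans hkX
  have hXR : (12 : ℝ) ≤ X := by exact_mod_cast hX12
  have hG : ∫ u : ℝ, (gw (pairs A P) lg s u - gw (pairs A P) lg ((A : ℝ) ^ (-(1 / 2) : ℝ)) u) ^ 2 ≤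
      C * ((A : ℝ) * P) ^ 2 * (A : ℝ) ^ (-c) := by
    rw [hl2]
    refine le_trans (le_of_eq ?_) (hg A P s hA (by omega) hPb hs hs1 hsP)
    refine integral_congr_ae (Filter.Eventually.of_forall fun t => ?_)
    simp only
    rw [bad_sum]
  have hm : ∀ n ∈ E, (n : ℝ) + ((k + 2) / 3 : ℕ) + 1 ≤ 3 * X := by
    intro n hn
    obtain ⟨_, h2, _⟩ := hE n hn
    have : n + (k + 2) / 3 + 1 ≤ 3 * X := by omega
    exact_mod_cast this
  have hX1R : 6 * (A : ℝ) * P ≤ X := by exact_mod_cast hX1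
  have hX2R : 3 * (X : ℝ) ≤ 20 * (A : ℝ) * P := by
    have h1 : 3 * X ≤ 20 * A * P := by
      have h2 : A * 18 ≤ A * P := Nat.mul_le_mul_left _ hP
      nlinarith
    exact_mod_cast h1
  have hlow := bad_int hint (fun u => sq_nonneg _) (((A : ℝ) * (pr P).card / 8) ^ 2) (sq_nonneg _)
    E X ((k + 2) / 3) (by omega) (fun n hn => (hE n hn).1) hm (by
      intro n hn u hu1 hu2
      obtain ⟨hn1, hn2, hn3⟩ := hE n hn
      have hn1R : (X : ℝ) ≤ n := by exact_mod_cast hn1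
      have hm0 : (0 : ℝ) ≤ (((k + 2) / 3 : ℕ) : ℝ) := Nat.cast_nonneg _
      have h1 := short A P X n k s u hA hs hn1 hn2 hk hkX hu1.le hu2
      have h2 : s * gw (pairs A P) lg s u ≤ s * (A * (pr P).card / 8) := by linarith
      have h3 : gw (pairs A P) lg s u ≤ A * (pr P).card / 8 := le_of_mul_le_mul_left h2 hs
      have h4 := hA0 A P hAA0 (by omega) u (by linarith) (by
        have := hm n hn
        linarith)
      have h5 : 0 ≤ (A : ℝ) * (pr P).card / 8 := by positivity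
      have h6 : (A : ℝ) * (pr P).card / 8 ≤ gw (pairs A P) lg ((A : ℝ) ^ (-(1 / 2) : ℝ)) u -
          gw (pairs A P) lg s u := by linarith
      calc ((A : ℝ) * (pr P).card / 8) ^ 2 ≤ (gw (pairs A P) lg ((A : ℝ) ^ (-(1 / 2) : ℝ)) u -
          gw (pairs A P) lg s u) ^ 2 := pow_le_pow_left₀ h5 h6 2
        _ = _ := by ring)
  have h7 := hlow.trans hG
  have h8 : (E.card : ℝ) * ((((A : ℝ) * (pr P).card / 8) ^ 2) / (3 * X)) =
      ((E.card : ℝ) * ((pr P).card : ℝ) ^ 2) * ((A : ℝ) ^ 2 / (192 * X)) := by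
    field_simp
    ring
  rw [h8] at h7
  have h9 : 0 < (A : ℝ) ^ 2 / (192 * X) := by positivity
  refine le_of_mul_le_mul_right (h7.trans (le_of_eq ?_)) h9
  field_simp

end Pool.Agent.TFE
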