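import Mathlib
import Pool.Agent.KDT.Main
import Pool.Agent.WYL.Bl3

/-! # TFE/Blk: `∑_{N ≤ n < N+M} n^{it}`, `M ≤ N`, `N^s ≤ |t| ≤ N^B`

For `|t| ≤ N^(1/2)`: `WYL.bl3` (with `α = 0`).  For `N^(1/2) ≤ |t| ≤ N^B`: `KDT.kdt`. -/

set_option autoImplicit false

open Finset

namespace Pool.Agent.TFE

theorem blk (s B : ℝ) (hs : 0 < s) (hs1 : s ≤ 1 / 2) (hB : 1 ≤ B) :
    ∃ c C : ℝ, 0 < c ∧ c ≤ 1 / 4 ∧ 0 < C ∧ ∀ N M : ℕ, 1 ≤ N → M ≤ N → ∀ t : ℝ,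
      (N : ℝ) ^ s ≤ |t| → |t| ≤ (N : ℝ) ^ B →
      ‖∑ n ∈ Ico N (N + M), Complex.exp (((t * Real.log n : ℝ) : ℂ) * Complex.I)‖ ≤
        C * (N : ℝ) ^ (1 - c) := by
  obtain ⟨c1, C1, hc1, hC1, h1⟩ := Pool.Agent.KDT.kdt ⌈B⌉₊
  obtain ⟨C2, hC2, h2⟩ := WYL.bl3
  refine ⟨min (min (s / 6) c1) (1 / 4), max C1 (3 * C2), by positivity, min_le_right _ _,
    lt_max_of_lt_left hC1, ?_⟩
  intro N M hN hM t ht1 ht2
  have hN1 : (1 : ℝ) ≤ N := by exact_mod_cast hN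
  have hN0 : (0 : ℝ) < N := by linarith
  set c := min (min (s / 6) c1) (1 / 4) with hc
  have hcs : c ≤ s / 6 := (min_le_left _ _).trans (min_le_left _ _)
  have hcc : c ≤ c1 := (min_le_left _ _).trans (min_le_right _ _)
  have hc4 : c ≤ 1 / 4 := min_le_right _ _
  rcases le_total |t| ((N : ℝ) ^ (1 / 2 : ℝ)) with ht | ht
  · have h3 := h2 0 t N M le_rfl zero_le_one hN hM
    simp only [add_zero] at h3
    refine h3.trans ?_
    have e1 : (N : ℝ) ^ (1 / 2 : ℝ) * (1 + |t|) ^ (1 / 6 : ℝ) ≤ 2 * (N : ℝ) ^ (1 - c) := by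
      have h4 : 1 + |t| ≤ 2 * (N : ℝ) ^ (1 / 2 : ℝ) := by
        have := Real.one_le_rpow hN1 (by norm_num : (0 : ℝ) ≤ 1 / 2)
        linarith
      have h5 : (1 + |t|) ^ (1 / 6 : ℝ) ≤ 2 * (N : ℝ) ^ (1 / 12 : ℝ) := by
        calc (1 + |t|) ^ (1 / 6 : ℝ) ≤ (2 * (N : ℝ) ^ (1 / 2 : ℝ)) ^ (1 / 6 : ℝ) :=
              Real.rpow_le_rpow (by positivity) h4 (by norm_num)
          _ = 2 ^ (1 / 6 : ℝ) * (N : ℝ) ^ (1 / 12 : ℝ) := by
              rw [Real.mul_rpow (by norm_num) (by positivity), ← Real.rpow_mul hN0.le]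
              norm_num
          _ ≤ 2 * (N : ℝ) ^ (1 / 12 : ℝ) := by
              apply mul_le_mul_of_nonneg_right _ (by positivity)
              calc (2 : ℝ) ^ (1 / 6 : ℝ) ≤ 2 ^ (1 : ℝ) :=
                    Real.rpow_le_rpow_of_exponent_le (by norm_num) (by norm_num)
                _ = 2 := Real.rpow_one 2
      calc (N : ℝ) ^ (1 / 2 : ℝ) * (1 + |t|) ^ (1 / 6 : ℝ)
          ≤ (N : ℝ) ^ (1 / 2 : ℝ) * (2 * (N : ℝ) ^ (1 / 12 : ℝ)) :=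
            mul_le_mul_of_nonneg_left h5 (by positivity)
        _ = 2 * ((N : ℝ) ^ (1 / 2 : ℝ) * (N : ℝ) ^ (1 / 12 : ℝ)) := by ring
        _ = 2 * (N : ℝ) ^ (1 / 2 + 1 / 12 : ℝ) := by rw [← Real.rpow_add hN0]
        _ ≤ 2 * (N : ℝ) ^ (1 - c) := by
            apply mul_le_mul_of_nonneg_left _ (by norm_num)
            exact Real.rpow_le_rpow_of_exponent_le hN1 (by linarith)
    have e2 : (N : ℝ) * (1 + |t|) ^ (-(1 / 6) : ℝ) ≤ (N : ℝ) ^ (1 - c) := by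
      have h4 : (N : ℝ) ^ s ≤ 1 + |t| := by linarith
      have h5 : (1 + |t|) ^ (-(1 / 6) : ℝ) ≤ ((N : ℝ) ^ s) ^ (-(1 / 6) : ℝ) :=
        Real.rpow_le_rpow_of_nonpos (by positivity) h4 (by norm_num)
      calc (N : ℝ) * (1 + |t|) ^ (-(1 / 6) : ℝ) ≤ (N : ℝ) * ((N : ℝ) ^ s) ^ (-(1 / 6) : ℝ) :=
            mul_le_mul_of_nonneg_left h5 hN0.le
        _ = (N : ℝ) ^ (1 : ℝ) * (N : ℝ) ^ (s * (-(1 / 6))) := by
            rw [Real.rpow_one, ← Real.rpow_mul hN0.le]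
        _ = (N : ℝ) ^ (1 + s * (-(1 / 6))) := by rw [← Real.rpow_add hN0]
        _ ≤ (N : ℝ) ^ (1 - c) :=
            Real.rpow_le_rpow_of_exponent_le hN1 (by linarith)
    calc C2 * ((N : ℝ) ^ (1 / 2 : ℝ) * (1 + |t|) ^ (1 / 6 : ℝ) +
          (N : ℝ) * (1 + |t|) ^ (-(1 / 6) : ℝ))
        ≤ C2 * (2 * (N : ℝ) ^ (1 - c) + (N : ℝ) ^ (1 - c)) :=
          mul_le_mul_of_nonneg_left (add_le_add e1 e2) hC2.le
      _ = (3 * C2) * (N : ℝ) ^ (1 - c) := by ring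
      _ ≤ _ := mul_le_mul_of_nonneg_right (le_max_right _ _) (by positivity)
  · refine (h1 t N M hN hM ht ?_).trans ?_
    · refine ht2.trans ?_
      rw [← Real.rpow_natCast]
      exact Real.rpow_le_rpow_of_exponent_le hN1 (Nat.le_ceil B)
    · refine mul_le_mul (le_max_left _ _) ?_ (by positivity) (by positivity)
      exact Real.rpow_le_rpow_of_exponent_le hN1 (by linarith)

end Pool.Agent.TFE
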