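import Pool.Agent.TFE.Defs

/-! # TFE/Prm: many primes in `(P, 4P]`

`Chebyshev.theta_ge`, `Chebyshev.theta_le_log4_mul_x`: `θ(4P) - θ(P) ≥ 4P log 2 - P log 4 - o(P) ≥ (6/5) P`, and
`θ(4P) - θ(P) ≤ |pr P| log (4P)`. -/

set_option autoImplicit false

open Finset

namespace Pool.Agent.TFE

private theorem theta_split (P : ℕ) :
    Chebyshev.theta ((4 * P : ℕ) : ℝ) = Chebyshev.theta (P : ℝ) + ∑ p ∈ pr P, Real.log p := by
  unfold Chebyshev.theta
  rw [Nat.floor_natCast, Nat.floor_natCast]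
  have h : (Ioc 0 (4 * P)).filter Nat.Prime = (Ioc 0 P).filter Nat.Prime ∪ pr P := by
    unfold pr
    ext p
    simp only [mem_union, mem_filter, mem_Ioc]
    constructor
    · rintro ⟨⟨h1, h2⟩, h3⟩
      rcases le_or_gt p P with h4 | h4
      · exact Or.inl ⟨⟨h1, h4⟩, h3⟩
      · exact Or.inr ⟨⟨h4, h2⟩, h3⟩
    · rintro (⟨⟨h1, h2⟩, h3⟩ | ⟨⟨h1, h2⟩, h3⟩)
      · exact ⟨⟨h1, by omega⟩, h3⟩
      · exact ⟨⟨by omega, h2⟩, h3⟩
  have hd : Disjoint ((Ioc 0 P).filter Nat.Prime) (pr P) := by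
    unfold pr
    rw [Finset.disjoint_left]
    intro p h1 h2
    simp only [mem_filter, mem_Ioc] at h1 h2
    omega
  rw [h, sum_union hd]

theorem pr_card : ∃ P0 : ℕ, 3 ≤ P0 ∧ ∀ P : ℕ, P0 ≤ P → (P : ℝ) / Real.log P ≤ (pr P).card := by
  have e1 : ∀ᶠ x : ℝ in Filter.atTop, |Real.log x| ≤ (1 / 100) * |x| := by
    have := Real.isLittleO_log_id_atTop.def (show (0 : ℝ) < 1 / 100 by norm_num)
    simpa using this
  have e2 : ∀ᶠ x : ℝ in Filter.atTop, |Real.log x| ≤ (1 / 100) * |x ^ (1 / 2 : ℝ)| := by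
    have := (isLittleO_log_rpow_atTop (show (0 : ℝ) < 1 / 2 by norm_num)).def
      (show (0 : ℝ) < 1 / 100 by norm_num)
    filter_upwards [this] with x hx
    simpa only [Real.norm_eq_abs] using hx
  have e3 : ∀ᶠ x : ℝ in Filter.atTop, 100 ≤ Real.log x :=
    Real.tendsto_log_atTop.eventually_ge_atTop 100
  obtain ⟨x0, h0⟩ := Filter.eventually_atTop.1 (e1.and (e2.and e3))
  refine ⟨max 3 ⌈x0⌉₊, le_max_left _ _, fun P hP => ?_⟩
  have hP3 : 3 ≤ P := (le_max_left _ _).trans hP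
  have hPx : x0 ≤ P := (Nat.le_ceil x0).trans (by exact_mod_cast (le_max_right _ _).trans hP)
  have hPr : (3 : ℝ) ≤ P := by exact_mod_cast hP3
  obtain ⟨-, -, a3⟩ := h0 P hPx
  obtain ⟨-, b2, -⟩ := h0 (4 * P) (by linarith)
  obtain ⟨c1, -, -⟩ := h0 (4 * P + 1) (by linarith)
  have hs : √(4 * (P : ℝ)) = (4 * (P : ℝ)) ^ (1 / 2 : ℝ) := Real.sqrt_eq_rpow _
  have hs0 : 0 ≤ √(4 * (P : ℝ)) := Real.sqrt_nonneg _
  have hss : √(4 * (P : ℝ)) * √(4 * (P : ℝ)) = 4 * P := Real.mul_self_sqrt (by linarith)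
  rw [← hs, abs_of_nonneg hs0] at b2
  have b3 : Real.log (4 * P) ≤ 1 / 100 * √(4 * (P : ℝ)) := (le_abs_self _).trans b2
  have c2 : Real.log (4 * P + 1) ≤ 1 / 100 * (4 * P + 1) := by
    refine ((le_abs_self _).trans c1).trans (le_of_eq ?_)
    rw [abs_of_pos (by linarith)]
  have hg := Chebyshev.theta_ge (4 * P)
  have hl := Chebyshev.theta_le_log4_mul_x (x := (P : ℝ)) (by linarith)
  have hsp := theta_split P
  push_cast at hg hsp
  have hlog2 := Real.log_two_gt_d9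
  have hlog4 : Real.log 4 = 2 * Real.log 2 := by
    rw [show (4 : ℝ) = 2 ^ 2 by norm_num, Real.log_pow]; norm_num
  have hlog2' := Real.log_two_lt_d9
  have k1 : 2 * √(4 * (P : ℝ)) * Real.log (4 * P) ≤ 2 / 100 * (4 * P) := by
    have : 2 * √(4 * (P : ℝ)) * Real.log (4 * P) ≤ 2 * √(4 * (P : ℝ)) * (1 / 100 * √(4 * (P : ℝ))) :=
      mul_le_mul_of_nonneg_left b3 (by positivity)
    nlinarith
  have k2 : (125 / 100 : ℝ) * P ≤ ∑ p ∈ pr P, Real.log p := by
    rw [hlog4] at hl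
    nlinarith
  have k3 : ∑ p ∈ pr P, Real.log p ≤ (pr P).card * Real.log (4 * P) := by
    rw [← nsmul_eq_mul]
    refine sum_le_card_nsmul _ _ _ fun p hp => ?_
    unfold pr at hp
    obtain ⟨hp1, hp2⟩ := mem_filter.1 hp
    rw [mem_Ioc] at hp1
    apply Real.log_le_log (by exact_mod_cast hp2.pos)
    exact_mod_cast hp1.2
  have hlogP : Real.log (4 * P) = 2 * Real.log 2 + Real.log P := by
    rw [Real.log_mul (by norm_num) (by linarith), hlog4]
  have hP0 : 0 < Real.log P := by linarith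
  have h4P : 0 < Real.log (4 * P) := by rw [hlogP]; linarith
  rw [div_le_iff₀ hP0]
  have k4 : (125 / 100 : ℝ) * P ≤ (pr P).card * (2 * Real.log 2 + Real.log P) := by
    rw [← hlogP]; linarith
  have hc : (0 : ℝ) ≤ (pr P).card := Nat.cast_nonneg _
  have k5 : (pr P).card * (2 * Real.log 2) ≤ (pr P).card * (Real.log P * (2 / 100)) := by
    apply mul_le_mul_of_nonneg_left _ hc
    linarith
  nlinarith

theorem pr_card_le (P : ℕ) : (pr P).card ≤ 3 * P := by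
  unfold pr
  refine (card_filter_le _ _).trans ?_
  rw [Nat.card_Ioc]
  omega

end Pool.Agent.TFE
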