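import Pool.Agent.TFE.Defs

/-! # TFE/Tau: from hits to the divisor quotient

For `p ∈ pr P` let `r p` be the number of `a ∈ [A, 32A)` with `n < a p ≤ n + k`.  `v_p((n+k)!) ≥ v_p(n!) + r p`
(`(n+k)! = n! ∏_{n < m ≤ n+k} m`), `v_p(n!) ≤ n/(p-1) ≤ 24 A`, `r p ≤ 31 A`.  With
`Nat.card_divisors`: `F k n ≥ ∏_{p ∈ pr P} (1 + r p/(49 A)) ≥ exp (∑ r p/(98 A))`; the
other primes have quotient `≥ 1`. -/

set_option autoImplicit false

open Finset

namespace Pool.Agent.TFE

theorem F_mono (n : ℕ) {k l : ℕ} (h : k ≤ l) : F k n ≤ F l n := by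
  unfold F
  have h1 : (0 : ℝ) < (n.factorial.divisors.card : ℝ) := by
    exact_mod_cast Finset.card_pos.2 ⟨1, Nat.one_mem_divisors.2 (Nat.factorial_ne_zero n)⟩
  apply div_le_div_of_nonneg_right _ h1.le
  have h2 : ((n + k).factorial.divisors) ⊆ (n + l).factorial.divisors :=
    Nat.divisors_subset_of_dvd (Nat.factorial_ne_zero _) (Nat.factorial_dvd_factorial (by omega))
  exact_mod_cast Finset.card_le_card h2

theorem one_le_F (k n : ℕ) : 1 ≤ F k n := by
  have h1 : (0 : ℝ) < (n.factorial.divisors.card : ℝ) := by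
    exact_mod_cast Finset.card_pos.2 ⟨1, Nat.one_mem_divisors.2 (Nat.factorial_ne_zero n)⟩
  have h2 : F 0 n = 1 := by
    unfold F
    rw [Nat.add_zero]
    exact div_self h1.ne'
  rw [← h2]
  exact F_mono n (Nat.zero_le k)

/-- number of multipliers -/
private def rr (A n k p : ℕ) : ℕ := ((Ico A (32 * A)).filter fun a => n < a * p ∧ a * p ≤ n + k).card

private lemma hits_card (A P n k : ℕ) : (hits A P n k).card = ∑ p ∈ pr P, rr A n k p := by
  unfold hits pairs rr
  rw [Finset.card_filter, Finset.sum_product_right]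
  refine Finset.sum_congr rfl fun p _ => ?_
  rw [Finset.card_filter]

private lemma fact_prod (n k : ℕ) : (n + k).factorial = n.factorial * ∏ m ∈ Ioc n (n + k), m := by
  induction k with
  | zero => simp
  | succ k ih =>
    rw [← add_assoc, Nat.factorial_succ, ih, Finset.prod_Ioc_succ_top (by omega : n ≤ n + k)]
    ring

private lemma dvd_fact (A n k p : ℕ) (hp : 0 < p) :
    n.factorial * p ^ rr A n k p ∣ (n + k).factorial := by
  rw [fact_prod]
  apply Nat.mul_dvd_mul_left
  set T := ((Ico A (32 * A)).filter fun a => n < a * p ∧ a * p ≤ n + k) with hT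
  have h1 : T.image (fun a => a * p) ⊆ Ioc n (n + k) := by
    intro m hm
    obtain ⟨a, ha, rfl⟩ := Finset.mem_image.1 hm
    exact Finset.mem_Ioc.2 (Finset.mem_filter.1 ha).2
  have h2 : ∏ m ∈ T.image (fun a => a * p), m = ∏ a ∈ T, a * p :=
    Finset.prod_image (fun x _ y _ h => Nat.eq_of_mul_eq_mul_right hp h)
  have h3 : p ^ T.card ∣ ∏ a ∈ T, a * p := by
    rw [← Finset.prod_const]
    exact Finset.prod_dvd_prod_of_dvd _ _ fun a _ => dvd_mul_left p a
  show p ^ T.card ∣ _
  exact h3.trans (h2 ▸ Finset.prod_dvd_prod_of_subset _ _ _ h1)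

private lemma val_le (A P n p : ℕ) (hP : 1 ≤ P) (hn : n ≤ 24 * A * P) (hp : p.Prime) (hPp : P < p) :
    n.factorial.factorization p ≤ 24 * A := by
  have := Fact.mk hp
  have h1 := sub_one_mul_padicValNat_factorial (p := p) n
  rw [Nat.factorization_def _ hp]
  have h2 : (p - 1) * padicValNat p n.factorial ≤ n := by
    rw [h1]; exact Nat.sub_le _ _
  have h3 : P * padicValNat p n.factorial ≤ 24 * A * P :=
    le_trans (Nat.mul_le_mul_right _ (by omega)) (h2.trans hn)
  rw [mul_comm (24 * A) P] at h3
  exact Nat.le_of_mul_le_mul_left h3 (by omega)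

private lemma val_add (A n k p : ℕ) (hp : p.Prime) :
    n.factorial.factorization p + rr A n k p ≤ (n + k).factorial.factorization p := by
  have h1 := dvd_fact A n k p hp.pos
  have h2 := (Nat.factorization_le_iff_dvd (mul_ne_zero (Nat.factorial_ne_zero n)
    (pow_ne_zero _ hp.ne_zero)) (Nat.factorial_ne_zero (n + k))).2 h1
  have h3 := h2 p
  rw [Nat.factorization_mul (Nat.factorial_ne_zero n) (pow_ne_zero _ hp.ne_zero),
    Nat.Prime.factorization_pow hp, Finsupp.add_apply, Finsupp.single_eq_same] at h3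
  exact h3

private lemma exp_half_le (y : ℝ) (h0 : 0 ≤ y) (h1 : y ≤ 1) : Real.exp (y / 2) ≤ 1 + y := by
  have h2 := Real.add_one_le_exp (-(y / 2))
  have h3 : Real.exp (y / 2) * Real.exp (-(y / 2)) = 1 := by
    rw [← Real.exp_add]; simp
  have h4 : 0 < Real.exp (y / 2) := Real.exp_pos _
  have h5 : Real.exp (y / 2) * (1 - y / 2) ≤ 1 := by
    rw [← h3]
    apply mul_le_mul_of_nonneg_left _ h4.le
    linarith
  have h6 : 0 < 1 - y / 2 := by linarith
  have h7 : 1 ≤ (1 + y) * (1 - y / 2) := by nlinarith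
  by_contra hcon
  push Not at hcon
  have h8 : (1 + y) * (1 - y / 2) < Real.exp (y / 2) * (1 - y / 2) :=
    mul_lt_mul_of_pos_right hcon h6
  linarith

private lemma card_div (m : ℕ) (S : Finset ℕ) (hS : m.factorial.primeFactors ⊆ S) :
    (m.factorial.divisors.card : ℝ) = ∏ p ∈ S, ((m.factorial.factorization p : ℝ) + 1) := by
  rw [Nat.card_divisors (Nat.factorial_ne_zero m)]
  push_cast
  apply Finset.prod_subset hS
  intro p _ hp
  have h1 : m.factorial.factorization p = 0 := by
    rw [← Finsupp.notMem_support_iff, Nat.support_factorization]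
    exact hp
  rw [h1]
  simp

theorem tau_lower (A P n k : ℕ) (hA : 1 ≤ A) (hP : 1 ≤ P) (hn : n ≤ 24 * A * P) :
    Real.exp (((hits A P n k).card : ℝ) / (98 * A)) ≤ F k n := by
  set S : Finset ℕ := ((n + k).factorial.primeFactors ∪ n.factorial.primeFactors) ∪ pr P with hS
  have hA0 : (0 : ℝ) < A := by exact_mod_cast hA
  have h1 : F k n = ∏ p ∈ S, (((n + k).factorial.factorization p : ℝ) + 1) /
      ((n.factorial.factorization p : ℝ) + 1) := by
    unfold F
    rw [card_div (n + k) S (by
        rw [hS]; exact (Finset.subset_union_left).trans Finset.subset_union_left),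
      card_div n S (by
        rw [hS]; exact (Finset.subset_union_right).trans Finset.subset_union_left),
      Finset.prod_div_distrib]
  have hge : ∀ p, (1 : ℝ) ≤ (((n + k).factorial.factorization p : ℝ) + 1) /
      ((n.factorial.factorization p : ℝ) + 1) := by
    intro p
    rw [one_le_div (by positivity)]
    have h2 : n.factorial.factorization p ≤ (n + k).factorial.factorization p :=
      (Nat.factorization_le_iff_dvd (Nat.factorial_ne_zero n) (Nat.factorial_ne_zero _)).2
        (Nat.factorial_dvd_factorial (by omega)) p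
    have h3 : (n.factorial.factorization p : ℝ) ≤ ((n + k).factorial.factorization p : ℝ) := by
      exact_mod_cast h2
    linarith
  have h2 : ∏ p ∈ pr P, (((n + k).factorial.factorization p : ℝ) + 1) /
      ((n.factorial.factorization p : ℝ) + 1) ≤ F k n := by
    have hsub : pr P ⊆ S := by rw [hS]; exact Finset.subset_union_right
    rw [h1, ← Finset.prod_sdiff hsub]
    apply le_mul_of_one_le_left
    · exact Finset.prod_nonneg fun p _ => zero_le_one.trans (hge p)
    · exact Finset.prod_induction _ (fun x : ℝ => 1 ≤ x)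
        (fun a b ha hb => one_le_mul_of_one_le_of_one_le ha hb) le_rfl (fun p _ => hge p)
  refine le_trans ?_ h2
  rw [hits_card]
  push_cast
  rw [Finset.sum_div, Real.exp_sum]
  apply Finset.prod_le_prod (fun p _ => (Real.exp_pos _).le)
  intro p hp
  obtain ⟨hp1, hp2⟩ := Finset.mem_filter.1 hp
  have hPp : P < p := (Finset.mem_Ioc.1 hp1).1
  have hv := val_le A P n p hP hn hp2 hPp
  have hadd := val_add A n k p hp2
  have hr : rr A n k p ≤ 31 * A := by
    unfold rr
    refine (Finset.card_filter_le _ _).trans ?_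
    rw [Nat.card_Ico]
    omega
  have hv' : (n.factorial.factorization p : ℝ) ≤ 24 * A := by exact_mod_cast hv
  have hadd' : (n.factorial.factorization p : ℝ) + rr A n k p ≤
      ((n + k).factorial.factorization p : ℝ) := by exact_mod_cast hadd
  have hr' : (rr A n k p : ℝ) ≤ 31 * A := by exact_mod_cast hr
  have hr0 : (0 : ℝ) ≤ rr A n k p := Nat.cast_nonneg _
  have hA1 : (1 : ℝ) ≤ A := by exact_mod_cast hA
  have h3 : (rr A n k p : ℝ) / (98 * A) = ((rr A n k p : ℝ) / (49 * A)) / 2 := by
    field_simp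
    ring
  rw [h3]
  refine (exp_half_le _ (by positivity) ?_).trans ?_
  · rw [div_le_one (by positivity)]
    linarith
  · have hv0 : (0 : ℝ) ≤ (n.factorial.factorization p : ℝ) := Nat.cast_nonneg _
    rw [le_div_iff₀ (by positivity)]
    have h4 : (rr A n k p : ℝ) / (49 * A) * ((n.factorial.factorization p : ℝ) + 1) ≤
        rr A n k p := by
      rw [div_mul_eq_mul_div, div_le_iff₀ (by positivity)]
      apply mul_le_mul_of_nonneg_left _ hr0
      linarith
    nlinarith

end Pool.Agent.TFE
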