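import Pool.Agent.TFE.Bad
import Pool.Agent.TFE.Prm
import Pool.Agent.TFE.Tau

/-! # TFE/Cnt: exceptional `n` in `[X, 2X)` for a fixed `k` -/

set_option autoImplicit false

open Finset

namespace Pool.Agent.TFE

theorem ev_params {η c C Y0 : ℝ} (hη : 0 < η) (hc : 0 < c) (hC : 0 < C) : ∃ X0 : ℕ, ∀ X : ℕ, X0 ≤ X →
    (1 : ℝ) ≤ X ∧ Y0 ≤ (X : ℝ) ^ (η / 8) ∧ Real.log X ≤ (X : ℝ) ^ (η / 8) ∧
      C * Real.log X ^ 2 ≤ (X : ℝ) ^ (c * η / 16) := by
  have h1 : ∀ᶠ x : ℝ in Filter.atTop, Y0 ≤ x ^ (η / 8) :=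
    (tendsto_rpow_atTop (by positivity)).eventually_ge_atTop _
  have h2 : ∀ᶠ x : ℝ in Filter.atTop, ‖Real.log x‖ ≤ 1 * ‖x ^ (η / 8)‖ :=
    (isLittleO_log_rpow_atTop (by positivity)).bound one_pos
  have h3 : ∀ᶠ x : ℝ in Filter.atTop, ‖Real.log x‖ ≤ (Real.sqrt C)⁻¹ * ‖x ^ (c * η / 32)‖ :=
    (isLittleO_log_rpow_atTop (by positivity)).bound (by positivity)
  have h4 : ∀ᶠ x : ℝ in Filter.atTop, 1 ≤ x := Filter.eventually_ge_atTop 1
  have h5 : ∀ᶠ X : ℕ in Filter.atTop, (1 : ℝ) ≤ X ∧ Y0 ≤ (X : ℝ) ^ (η / 8) ∧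
      Real.log X ≤ (X : ℝ) ^ (η / 8) ∧ C * Real.log X ^ 2 ≤ (X : ℝ) ^ (c * η / 16) := by
    have h6 := (h1.and (h2.and (h3.and h4)))
    have h7 := tendsto_natCast_atTop_atTop.eventually h6
    filter_upwards [h7] with X hX
    obtain ⟨g1, g2, g3, g4⟩ := hX
    have g5 : (0 : ℝ) < X := by linarith
    have g6 : 0 ≤ Real.log X := Real.log_nonneg g4
    rw [one_mul, Real.norm_of_nonneg g6, Real.norm_of_nonneg (by positivity)] at g2
    rw [Real.norm_of_nonneg g6, Real.norm_of_nonneg (by positivity)] at g3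
    refine ⟨g4, g1, g2, ?_⟩
    have g7 : Real.log X ^ 2 ≤ ((Real.sqrt C)⁻¹ * (X : ℝ) ^ (c * η / 32)) ^ 2 :=
      pow_le_pow_left₀ g6 g3 2
    have g8 : ((Real.sqrt C)⁻¹ * (X : ℝ) ^ (c * η / 32)) ^ 2 = C⁻¹ * (X : ℝ) ^ (c * η / 16) := by
      rw [mul_pow, inv_pow, Real.sq_sqrt hC.le, pow_two ((X : ℝ) ^ (c * η / 32)), ← Real.rpow_add g5]
      congr 2
      ring
    rw [g8] at g7
    calc C * Real.log X ^ 2 ≤ C * (C⁻¹ * (X : ℝ) ^ (c * η / 16)) := mul_le_mul_of_nonneg_left g7 hC.le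
      _ = _ := by field_simp
  exact Filter.eventually_atTop.mp h5

theorem cnt (η : ℝ) (hη : 0 < η) (hη1 : η ≤ 1) : ∃ δ : ℝ, 0 < δ ∧ δ ≤ 1 / 2 ∧ ∃ X0 : ℕ, ∀ X k : ℕ, X0 ≤ X →
    (X : ℝ) ^ η ≤ k → k ≤ X → ∀ E : Finset ℕ,
    (∀ n ∈ E, X ≤ n ∧ n < 2 * X ∧ F k n < Real.exp (k * (X : ℝ) ^ (-η))) →
    (E.card : ℝ) ≤ (X : ℝ) ^ (1 - δ) := by
  obtain ⟨c, C, A0, hc, hC, hbad⟩ := bad (16 / η) (by
    rw [le_div_iff₀ hη]
    linarith)
  obtain ⟨P0, hP03, hP0⟩ := pr_card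
  obtain ⟨X0, hX0⟩ := ev_params (Y0 := 1000 + A0 + P0) hη hc hC
  refine ⟨min (c * η / 16) (1 / 2), by positivity, min_le_right _ _, X0, ?_⟩
  intro X k hX hk1 hk2 E hE
  obtain ⟨hX1, hY, hlog, hlog2⟩ := hX0 X hX
  have hXpos : (0 : ℝ) < X := by linarith
  obtain ⟨y, hy⟩ : ∃ y, y = (X : ℝ) ^ (η / 8) := ⟨_, rfl⟩
  rw [← hy] at hY hlog
  have hA0' : (0 : ℝ) ≤ A0 := Nat.cast_nonneg _
  have hP0' : (0 : ℝ) ≤ P0 := Nat.cast_nonneg _
  have hy1000 : 1000 ≤ y := by linarith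
  have hy0 : 0 < y := by linarith
  have hy8 : (X : ℝ) ^ η = y ^ 8 := by
    rw [hy, ← Real.rpow_natCast, ← Real.rpow_mul hXpos.le]
    congr 1
    push_cast
    ring
  have hXy : y ^ 8 ≤ X := by
    rw [← hy8]
    calc (X : ℝ) ^ η ≤ (X : ℝ) ^ (1 : ℝ) := Real.rpow_le_rpow_of_exponent_le hX1 hη1
      _ = X := Real.rpow_one _
  have hky : y ^ 8 ≤ (k : ℝ) := by rw [← hy8]; exact hk1
  -- powers of `y`
  have hy2 : 1000 * y ≤ y ^ 2 := by nlinarith
  have hy3 : (1000000 : ℝ) * y ≤ y ^ 3 := by nlinarith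
  have hy5 : (1000000000000 : ℝ) * y ^ 3 ≤ y ^ 8 := by
    have h1 : (1000000000000 : ℝ) ≤ y ^ 5 := by
      calc (1000000000000 : ℝ) ≤ 1000 ^ 5 := by norm_num
        _ ≤ y ^ 5 := pow_le_pow_left₀ (by norm_num) hy1000 5
    calc (1000000000000 : ℝ) * y ^ 3 ≤ y ^ 5 * y ^ 3 := mul_le_mul_of_nonneg_right h1 (by positivity)
      _ = y ^ 8 := by ring
  have hy32 : y ^ 2 ≤ y ^ 3 := by nlinarith [sq_nonneg y]
  -- `A`
  obtain ⟨A, hA⟩ : ∃ A : ℕ, A = ⌈y⌉₊ := ⟨_, rfl⟩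
  have hAy : y ≤ A := by rw [hA]; exact Nat.le_ceil y
  have hAy2 : (A : ℝ) ≤ 2 * y := by
    have := Nat.ceil_lt_add_one hy0.le
    rw [← hA] at this
    linarith
  have hApos : (0 : ℝ) < A := by linarith
  have hA1 : 1 ≤ A := by
    have : (1 : ℝ) ≤ A := by linarith
    exact_mod_cast this
  have hAA : (A : ℝ) ^ 2 ≤ 4 * y ^ 2 := by nlinarith
  -- `P`
  obtain ⟨P, hP⟩ : ∃ P : ℕ, P = X / (6 * A) := ⟨_, rfl⟩
  have hPle : 6 * A * P ≤ X := by rw [hP]; exact Nat.mul_div_le X (6 * A)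
  have hPlt : X < 6 * A * (P + 1) := by
    rw [hP]; exact Nat.lt_mul_div_succ X (by omega)
  have hPM : 18 + P0 ≤ P := by
    rw [hP, Nat.le_div_iff_mul_le (by omega)]
    have h1 : (((18 + P0) * (6 * A) : ℕ) : ℝ) ≤ X := by
      push_cast
      have h2 : (18 + (P0 : ℝ)) ≤ y := by linarith
      calc (18 + (P0 : ℝ)) * (6 * A) ≤ y * (6 * (2 * y)) :=
            mul_le_mul h2 (by linarith) (by positivity) hy0.le
        _ = 12 * y ^ 2 := by ring
        _ ≤ y ^ 8 := by linarith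
        _ ≤ X := hXy
    exact_mod_cast h1
  have hP18 : 18 ≤ P := by omega
  have hPpos : (0 : ℝ) < P := by
    have : 0 < P := by omega
    exact_mod_cast this
  have hPle' : 6 * (A : ℝ) * P ≤ X := by exact_mod_cast hPle
  have hPX : (X : ℝ) ≤ 12 * A * P := by
    have h1 : X ≤ 12 * A * P := by nlinarith
    exact_mod_cast h1
  -- the primes
  have hpr := hP0 P (by omega)
  obtain ⟨w, hw⟩ : ∃ w : ℝ, w = ((pr P).card : ℝ) := ⟨_, rfl⟩
  rw [← hw] at hpr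
  obtain ⟨L, hL⟩ : ∃ L : ℝ, L = Real.log X := ⟨_, rfl⟩
  rw [← hL] at hlog hlog2
  have hlogP : 0 < Real.log P := Real.log_pos (by
    have : (18 : ℝ) ≤ P := by exact_mod_cast hP18
    linarith)
  have hPX' : (P : ℝ) ≤ X := by nlinarith
  have hlogPX : Real.log P ≤ L := by rw [hL]; exact Real.log_le_log hPpos hPX'
  have hLpos : 0 < L := lt_of_lt_of_le hlogP hlogPX
  have hwpos : 0 < w := lt_of_lt_of_le (by positivity) hpr
  have hPw : (P : ℝ) ≤ w * L := by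
    rw [div_le_iff₀ hlogP] at hpr
    exact hpr.trans (mul_le_mul_of_nonneg_left hlogPX hwpos.le)
  -- `k`
  have hk0 : (0 : ℝ) < k := lt_of_lt_of_le (by positivity) hky
  have hk12 : 12 ≤ k := by
    have h1 : (12 : ℝ) ≤ k := by
      have : (12 : ℝ) ≤ y ^ 8 := by
        have h2 : (12 : ℝ) ≤ y ^ 3 := by nlinarith
        linarith [hy5]
      linarith
    exact_mod_cast h1
  have hkX : (k : ℝ) ≤ X := by exact_mod_cast hk2
  -- `s`
  obtain ⟨s, hs⟩ : ∃ s : ℝ, s = k / (16 * X * A) := ⟨_, rfl⟩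
  have hs0 : 0 < s := by rw [hs]; positivity
  have hs1 : s ≤ (A : ℝ) ^ (-(1 / 2) : ℝ) := by
    have h1 : s ≤ (A : ℝ) ^ (-1 : ℝ) := by
      rw [hs, Real.rpow_neg_one, div_le_iff₀ (by positivity)]
      rw [show (A : ℝ)⁻¹ * (16 * X * A) = 16 * X * ((A : ℝ)⁻¹ * A) by ring, inv_mul_cancel₀ hApos.ne']
      linarith
    refine h1.trans (Real.rpow_le_rpow_of_exponent_le (by exact_mod_cast hA1) (by norm_num))
  have hsP : 1 ≤ s * P := by
    rw [hs, div_mul_eq_mul_div, le_div_iff₀ (by positivity), one_mul]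
    calc 16 * (X : ℝ) * A ≤ 16 * (12 * A * P) * A := by
          have := mul_le_mul_of_nonneg_right hPX hApos.le
          linarith
      _ = 192 * (A : ℝ) ^ 2 * P := by ring
      _ ≤ k * P := by
          refine mul_le_mul_of_nonneg_right ?_ hPpos.le
          linarith
  have hPb : (P : ℝ) ≤ (A : ℝ) ^ (16 / η) := by
    have h1 : (X : ℝ) ≤ (A : ℝ) ^ (16 / η) := by
      have h2 : (X : ℝ) = y ^ (8 / η) := by
        rw [hy, ← Real.rpow_mul hXpos.le]
        rw [show η / 8 * (8 / η) = 1 by field_simp, Real.rpow_one]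
      rw [h2]
      calc y ^ (8 / η) ≤ (A : ℝ) ^ (8 / η) := Real.rpow_le_rpow hy0.le hAy (by positivity)
        _ ≤ (A : ℝ) ^ (16 / η) := Real.rpow_le_rpow_of_exponent_le (by exact_mod_cast hA1) (by
            rw [div_le_div_iff_of_pos_right hη]
            norm_num)
    linarith
  have hpairs : ((pairs A P).card : ℝ) ≤ 16 * X := by
    have h1 : (pairs A P).card = (32 * A - A) * (pr P).card := by
      unfold pairs
      rw [Finset.card_product, Nat.card_Ico]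
    have h2 := pr_card_le P
    have h3 : (pairs A P).card ≤ 16 * X := by
      rw [h1]
      calc (32 * A - A) * (pr P).card ≤ (32 * A - A) * (3 * P) := Nat.mul_le_mul_left _ h2
        _ = 31 * A * (3 * P) := by rw [show 32 * A - A = 31 * A by omega]
        _ ≤ 16 * X := by nlinarith
    exact_mod_cast h3
  have hexp : ((pairs A P).card : ℝ) * Real.exp (-((k : ℝ) / (16 * X)) ^ 2 / (2 * s ^ 2)) ≤ 1 := by
    have h1 : -((k : ℝ) / (16 * X)) ^ 2 / (2 * s ^ 2) = -((A : ℝ) ^ 2 / 2) := by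
      rw [hs]
      field_simp
    rw [h1]
    have h2 : Real.log (16 * X) ≤ (A : ℝ) ^ 2 / 2 := by
      rw [Real.log_mul (by norm_num) hXpos.ne', ← hL]
      have h3 : Real.log 16 ≤ 16 := by
        have := Real.log_le_sub_one_of_pos (show (0 : ℝ) < 16 by norm_num)
        linarith
      have h4 : y ^ 2 ≤ (A : ℝ) ^ 2 := pow_le_pow_left₀ hy0.le hAy 2
      linarith
    have h5 : 16 * (X : ℝ) ≤ Real.exp ((A : ℝ) ^ 2 / 2) := by
      rw [← Real.log_le_iff_le_exp (by positivity)]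
      exact h2
    rw [Real.exp_neg, ← div_eq_mul_inv, div_le_one (Real.exp_pos _)]
    exact hpairs.trans h5
  have hXy' : (X : ℝ) ^ (-η) = (y ^ 8)⁻¹ := by
    rw [Real.rpow_neg hXpos.le, hy8]
  have hE' : ∀ n ∈ E, X ≤ n ∧ n < 2 * X ∧
      ((hits A P n k).card : ℝ) + 1 ≤ s * (A * (pr P).card / 8) := by
    intro n hn
    obtain ⟨h1, h2, h3⟩ := hE n hn
    refine ⟨h1, h2, ?_⟩
    by_contra hcon
    push Not at hcon
    rw [← hw] at hcon
    have h4 := tau_lower A P n k hA1 (by omega) (by nlinarith)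
    refine absurd (lt_of_le_of_lt h4 h3) ?_
    rw [not_lt]
    refine Real.exp_le_exp.mpr ?_
    rw [le_div_iff₀ (by positivity), hXy']
    -- `k / (3072 A L) ≤ hits`
    have h5 : (k : ℝ) / (1536 * A * L) ≤ s * (A * w / 8) := by
      have h6 : s * (A * w / 8) = k * w / (128 * X) := by
        rw [hs]
        field_simp
        ring
      rw [h6, div_le_div_iff₀ (by positivity) (by positivity)]
      have h7 : (X : ℝ) ≤ 12 * A * (w * L) :=
        hPX.trans (mul_le_mul_of_nonneg_left hPw (by positivity))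
      nlinarith
    have h6 : 1 ≤ (k : ℝ) / (3072 * A * L) := by
      rw [le_div_iff₀ (by positivity), one_mul]
      calc 3072 * (A : ℝ) * L ≤ 3072 * (2 * y) * y :=
            mul_le_mul (by linarith) hlog hLpos.le (by positivity)
        _ = 6144 * y ^ 2 := by ring
        _ ≤ k := by linarith
    have h7 : (k : ℝ) / (1536 * A * L) = k / (3072 * A * L) + k / (3072 * A * L) := by
      field_simp
      ring
    have h8 : (k : ℝ) / (3072 * A * L) ≤ ((hits A P n k).card : ℝ) := by linarith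
    refine le_trans ?_ h8
    rw [le_div_iff₀ (by positivity)]
    have h9 : (98 * (A : ℝ)) * (3072 * A * L) ≤ y ^ 8 := by
      calc (98 * (A : ℝ)) * (3072 * A * L) = 301056 * ((A : ℝ) ^ 2 * L) := by ring
        _ ≤ 301056 * ((4 * y ^ 2) * y) := by
            refine mul_le_mul_of_nonneg_left ?_ (by norm_num)
            exact mul_le_mul hAA hlog hLpos.le (by positivity)
        _ = 1204224 * y ^ 3 := by ring
        _ ≤ y ^ 8 := by linarith [pow_pos hy0 3]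
    calc (k : ℝ) * (y ^ 8)⁻¹ * (98 * A) * (3072 * A * L) =
          k * ((y ^ 8)⁻¹ * ((98 * (A : ℝ)) * (3072 * A * L))) := by ring
      _ ≤ k * ((y ^ 8)⁻¹ * y ^ 8) := by
          refine mul_le_mul_of_nonneg_left ?_ hk0.le
          exact mul_le_mul_of_nonneg_left h9 (by positivity)
      _ = k := by rw [inv_mul_cancel₀ (by positivity), mul_one]
  have hA0A : A0 ≤ A := by
    have : (A0 : ℝ) ≤ A := by linarith
    exact_mod_cast this
  have hfin := hbad X A P k s E hA0A hA1 hP18 hPle hPlt hPb hk12 hk2 hs0 hs1 hsP hexp hE'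
  rw [← hw] at hfin
  have h1 : (E.card : ℝ) ≤ C * X * L ^ 2 * (A : ℝ) ^ (-c) := by
    have h2 : (P : ℝ) ^ 2 ≤ (w * L) ^ 2 := pow_le_pow_left₀ hPpos.le hPw 2
    have h3 : (E.card : ℝ) * w ^ 2 ≤ (C * X * L ^ 2 * (A : ℝ) ^ (-c)) * w ^ 2 := by
      refine hfin.trans ?_
      calc C * X * (P : ℝ) ^ 2 * (A : ℝ) ^ (-c) ≤ C * X * (w * L) ^ 2 * (A : ℝ) ^ (-c) := by
            refine mul_le_mul_of_nonneg_right ?_ (by positivity)
            exact mul_le_mul_of_nonneg_left h2 (by positivity)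
        _ = _ := by ring
    exact le_of_mul_le_mul_right h3 (by positivity)
  have h2 : (A : ℝ) ^ (-c) ≤ (X : ℝ) ^ (-(c * η / 8)) := by
    have h3 : y ^ (-c) = (X : ℝ) ^ (-(c * η / 8)) := by
      rw [hy, ← Real.rpow_mul hXpos.le]
      congr 1
      ring
    rw [← h3]
    exact Real.rpow_le_rpow_of_nonpos hy0 hAy (by linarith)
  have h3 : (E.card : ℝ) ≤ (X : ℝ) ^ (1 - c * η / 16) := by
    calc (E.card : ℝ) ≤ C * X * L ^ 2 * (A : ℝ) ^ (-c) := h1
      _ ≤ C * X * L ^ 2 * (X : ℝ) ^ (-(c * η / 8)) := mul_le_mul_of_nonneg_left h2 (by positivity)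
      _ = X * (C * L ^ 2) * (X : ℝ) ^ (-(c * η / 8)) := by ring
      _ ≤ X * (X : ℝ) ^ (c * η / 16) * (X : ℝ) ^ (-(c * η / 8)) := by
          refine mul_le_mul_of_nonneg_right ?_ (by positivity)
          exact mul_le_mul_of_nonneg_left hlog2 hXpos.le
      _ = (X : ℝ) ^ (1 - c * η / 16) := by
          nth_rewrite 1 [← Real.rpow_one (X : ℝ)]
          rw [← Real.rpow_add hXpos, ← Real.rpow_add hXpos]
          congr 1
          ring
  refine h3.trans (Real.rpow_le_rpow_of_exponent_le hX1 ?_)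
  have := min_le_left (c * η / 16) (1 / 2)
  linarith

end Pool.Agent.TFE
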