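import Mathlib

/-! # TFE: divisor counts of factorials in short extensions (MP_1b4df2_nt), definitions -/

set_option autoImplicit false

open Finset

namespace Pool.Agent.TFE

/-- the primes in `(P, 4P]` -/
def pr (P : ℕ) : Finset ℕ := (Ioc P (4 * P)).filter Nat.Prime

/-- the pairs `(a, p)`, `A ≤ a < 32 A`, `p` prime in `(P, 4P]` -/
def pairs (A P : ℕ) : Finset (ℕ × ℕ) := Ico A (32 * A) ×ˢ pr P

/-- the point `log a + log p` -/
noncomputable def lg (q : ℕ × ℕ) : ℝ := Real.log q.1 + Real.log q.2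

/-- Gaussian count of the points `x j` near `u`, normalised by the width `s` -/
noncomputable def gw {ι : Type} (S : Finset ι) (x : ι → ℝ) (s u : ℝ) : ℝ :=
  (1 / s) * ∑ j ∈ S, Real.exp (-(u - x j) ^ 2 / (2 * s ^ 2))

/-- the pairs with product in `(n, n+k]` -/
def hits (A P n k : ℕ) : Finset (ℕ × ℕ) :=
  (pairs A P).filter fun q => n < q.1 * q.2 ∧ q.1 * q.2 ≤ n + k

/-- `∑_{A ≤ a < 32 A} a^{it}` -/
noncomputable def SA (A : ℕ) (t : ℝ) : ℂ :=
  ∑ a ∈ Ico A (32 * A), Complex.exp (((t * Real.log a : ℝ) : ℂ) * Complex.I)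

/-- `∑_{P < p ≤ 4 P} p^{it}` -/
noncomputable def SP (P : ℕ) (t : ℝ) : ℂ :=
  ∑ p ∈ pr P, Complex.exp (((t * Real.log p : ℝ) : ℂ) * Complex.I)

/-- the difference of the two Gaussian factors, squared -/
noncomputable def gf (s s1 t : ℝ) : ℝ :=
  (Real.exp (-(s * t) ^ 2 / 2) - Real.exp (-(s1 * t) ^ 2 / 2)) ^ 2

/-- iterated differences -/
def dif : ℕ → (ℕ → ℝ) → ℕ → ℝ
  | 0, g => g
  | r + 1, g => dif r fun n => g (n + 1) - g n

/-- `τ((n+k)!) / τ(n!)` -/
noncomputable def F (k n : ℕ) : ℝ :=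
  ((n + k).factorial.divisors.card : ℝ) / (n.factorial.divisors.card : ℝ)

end Pool.Agent.TFE
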