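import Pool.Agent.TFE.Cnt

/-! # TFE/Fin: all `k` and all `n ≤ N` -/

set_option autoImplicit false

open Finset

namespace Pool.Agent.TFE

/-- counting over the dyadic ranges -/
theorem fin_one {η : ℝ} (hη : 0 < η) (hη1 : η ≤ 1) : ∃ δ C : ℝ, 0 < δ ∧ 0 < C ∧
    ∀ (N : ℕ) (E : Finset ℕ), 1 ≤ N →
    (∀ n ∈ E, 1 ≤ n ∧ n ≤ N ∧ ∃ k : ℕ, (n : ℝ) ^ η ≤ k ∧ k ≤ n ∧
      F k n < Real.exp (k * (n : ℝ) ^ (-η))) →
    (E.card : ℝ) ≤ C * (N : ℝ) ^ (1 - δ) := by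
  classical
  obtain ⟨δ, hδ, hδ2, X0, hX0⟩ := cnt (η / 2) (by linarith) (by linarith)
  obtain ⟨X1, hX1⟩ := exists_nat_ge ((4 : ℝ) ^ (2 / η))
  obtain ⟨X2, hX2⟩ : ∃ X2, X2 = max X0 (max X1 1) := ⟨_, rfl⟩
  have hlog2 : (0 : ℝ) < Real.log 2 := Real.log_pos (by norm_num)
  refine ⟨δ / 2, 2 * X2 + (4 / (δ * Real.log 2) + 1) ^ 2, by linarith, by positivity, ?_⟩
  intro N E hN hE
  have hN1 : (1 : ℝ) ≤ N := by exact_mod_cast hN
  have hN0 : (0 : ℝ) < N := by linarith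
  -- the cover
  let Eij : ℕ → ℕ → Finset ℕ := fun i j => E.filter (fun n => 2 ^ i ≤ n ∧ n < 2 * 2 ^ i ∧
    X2 ≤ 2 ^ i ∧ (((2 ^ i : ℕ) : ℝ)) ^ (η / 2) ≤ ((2 ^ j : ℕ) : ℝ) ∧ 2 ^ j ≤ 2 ^ i ∧
    F (2 ^ j) n < Real.exp (((2 ^ j : ℕ) : ℝ) * (((2 ^ i : ℕ) : ℝ)) ^ (-(η / 2))))
  have hcard : ∀ i ∈ Finset.range (Nat.log 2 N + 1), ∀ j ∈ Finset.range (Nat.log 2 N + 1),
      ((Eij i j).card : ℝ) ≤ (N : ℝ) ^ (1 - δ) := by
    intro i hi j _
    rw [Finset.mem_range] at hi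
    have hNi : 2 ^ i ≤ N := by
      refine le_trans (Nat.pow_le_pow_right (by norm_num) (by omega)) (Nat.pow_log_le_self 2 (by omega))
    rcases (Eij i j).eq_empty_or_nonempty with h0 | ⟨n, hn⟩
    · rw [h0]
      simp only [Finset.card_empty, Nat.cast_zero]
      positivity
    · have hn' := (Finset.mem_filter.mp hn).2
      obtain ⟨h1, h2, h3, h4, h5, h6⟩ := hn'
      have h7 := hX0 (2 ^ i) (2 ^ j) (le_trans (by rw [hX2]; exact le_max_left _ _) h3) h4 h5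
        (Eij i j) (by
          intro m hm
          have hm' := (Finset.mem_filter.mp hm).2
          exact ⟨hm'.1, hm'.2.1, hm'.2.2.2.2.2⟩)
      refine h7.trans ?_
      refine Real.rpow_le_rpow (by positivity) (by exact_mod_cast hNi) (by linarith)
  have hcover : E ⊆ Finset.range (2 * X2) ∪ (Finset.range (Nat.log 2 N + 1)).biUnion
      (fun i => (Finset.range (Nat.log 2 N + 1)).biUnion (fun j => Eij i j)) := by
    intro n hn
    obtain ⟨h1, h2, k, h3, h4, h5⟩ := hE n hn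
    rw [Finset.mem_union]
    by_cases hsmall : n < 2 * X2
    · exact Or.inl (Finset.mem_range.mpr hsmall)
    right
    push Not at hsmall
    have hn1 : (1 : ℝ) ≤ n := by exact_mod_cast h1
    obtain ⟨i, hi⟩ : ∃ i, i = Nat.log 2 n := ⟨_, rfl⟩
    have hXn : 2 ^ i ≤ n := by rw [hi]; exact Nat.pow_log_le_self 2 (by omega)
    have hnX : n < 2 * 2 ^ i := by
      rw [hi, ← pow_succ']
      exact Nat.lt_pow_succ_log_self (by norm_num) n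
    have hX2X : X2 ≤ 2 ^ i := by omega
    have hk1 : 1 ≤ k := by
      have h6 : (1 : ℝ) ≤ (n : ℝ) ^ η := Real.one_le_rpow hn1 hη.le
      have h7 : (1 : ℝ) ≤ k := h6.trans h3
      exact_mod_cast h7
    obtain ⟨m, hm⟩ : ∃ m, m = min k (2 ^ i) := ⟨_, rfl⟩
    have hm1 : m ≤ k := by rw [hm]; exact min_le_left _ _
    have hm2 : m ≤ 2 ^ i := by rw [hm]; exact min_le_right _ _
    have hm0 : 1 ≤ m := by rw [hm]; exact le_min hk1 (Nat.one_le_two_pow)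
    have hm3 : k ≤ 2 * m := by
      rcases le_total k (2 ^ i) with h | h
      · rw [hm, min_eq_left h]; omega
      · rw [hm, min_eq_right h]; omega
    obtain ⟨j, hj⟩ : ∃ j, j = Nat.log 2 m := ⟨_, rfl⟩
    have hjm : 2 ^ j ≤ m := by rw [hj]; exact Nat.pow_log_le_self 2 (by omega)
    have hmj : m < 2 * 2 ^ j := by
      rw [hj, ← pow_succ']
      exact Nat.lt_pow_succ_log_self (by norm_num) m
    have hkj : k ≤ 4 * 2 ^ j := by omega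
    have hX0' : (0 : ℝ) < ((2 ^ i : ℕ) : ℝ) := by positivity
    have hXn' : ((2 ^ i : ℕ) : ℝ) ≤ n := by exact_mod_cast hXn
    have hkj' : (k : ℝ) ≤ 4 * ((2 ^ j : ℕ) : ℝ) := by exact_mod_cast hkj
    -- `X ^ (η / 2) ≥ 4`
    have h4X : (4 : ℝ) ≤ ((2 ^ i : ℕ) : ℝ) ^ (η / 2) := by
      have h6 : (4 : ℝ) ^ (2 / η) ≤ ((2 ^ i : ℕ) : ℝ) := by
        have h7 : X1 ≤ 2 ^ i := by
          refine le_trans ?_ hX2X
          rw [hX2]
          exact (le_max_left _ _).trans (le_max_right _ _)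
        have h8 : (X1 : ℝ) ≤ ((2 ^ i : ℕ) : ℝ) := by exact_mod_cast h7
        exact hX1.trans h8
      have h7 := Real.rpow_le_rpow (by positivity) h6 (by positivity : (0 : ℝ) ≤ η / 2)
      rw [← Real.rpow_mul (by norm_num)] at h7
      have h8 : 2 / η * (η / 2) = 1 := by field_simp
      rw [h8, Real.rpow_one] at h7
      exact h7
    have hsplit : ((2 ^ i : ℕ) : ℝ) ^ η = ((2 ^ i : ℕ) : ℝ) ^ (η / 2) * ((2 ^ i : ℕ) : ℝ) ^ (η / 2) := by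
      rw [← Real.rpow_add hX0']
      congr 1
      ring
    have hpos : (0 : ℝ) < ((2 ^ i : ℕ) : ℝ) ^ (η / 2) := by linarith
    have hXη : ((2 ^ i : ℕ) : ℝ) ^ η ≤ (n : ℝ) ^ η := Real.rpow_le_rpow hX0'.le hXn' hη.le
    have hlow : ((2 ^ i : ℕ) : ℝ) ^ (η / 2) ≤ ((2 ^ j : ℕ) : ℝ) := by
      have h6 : 4 * ((2 ^ i : ℕ) : ℝ) ^ (η / 2) ≤ ((2 ^ i : ℕ) : ℝ) ^ η := by
        rw [hsplit]
        exact mul_le_mul_of_nonneg_right h4X hpos.le
      linarith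
    have hexp : (k : ℝ) * (n : ℝ) ^ (-η) ≤
        ((2 ^ j : ℕ) : ℝ) * ((2 ^ i : ℕ) : ℝ) ^ (-(η / 2)) := by
      have h6 : (n : ℝ) ^ (-η) ≤ ((2 ^ i : ℕ) : ℝ) ^ (-η) := by
        rw [Real.rpow_neg (by linarith), Real.rpow_neg hX0'.le]
        exact inv_anti₀ (by positivity) hXη
      have h7 : ((2 ^ i : ℕ) : ℝ) ^ (-η) * 4 ≤ ((2 ^ i : ℕ) : ℝ) ^ (-(η / 2)) := by
        rw [Real.rpow_neg hX0'.le, Real.rpow_neg hX0'.le, hsplit, mul_inv]
        have h8 : (((2 ^ i : ℕ) : ℝ) ^ (η / 2))⁻¹ * 4 ≤ 1 := by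
          rw [inv_mul_le_iff₀ hpos]
          linarith
        have h9 : (0 : ℝ) < (((2 ^ i : ℕ) : ℝ) ^ (η / 2))⁻¹ := inv_pos.mpr hpos
        nlinarith
      have h10 : (0 : ℝ) ≤ ((2 ^ i : ℕ) : ℝ) ^ (-η) := by positivity
      calc (k : ℝ) * (n : ℝ) ^ (-η) ≤ (4 * ((2 ^ j : ℕ) : ℝ)) * ((2 ^ i : ℕ) : ℝ) ^ (-η) :=
            mul_le_mul hkj' h6 (by positivity) (by positivity)
        _ = ((2 ^ j : ℕ) : ℝ) * (((2 ^ i : ℕ) : ℝ) ^ (-η) * 4) := by ring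
        _ ≤ _ := mul_le_mul_of_nonneg_left h7 (by positivity)
    have hiN : i ≤ Nat.log 2 N := by rw [hi]; exact Nat.log_mono_right h2
    have hji : j ≤ i := by
      have h6 : 2 ^ j ≤ 2 ^ i := hjm.trans hm2
      exact (Nat.pow_le_pow_iff_right (by norm_num)).mp h6
    rw [Finset.mem_biUnion]
    refine ⟨i, Finset.mem_range.mpr (by omega), ?_⟩
    rw [Finset.mem_biUnion]
    refine ⟨j, Finset.mem_range.mpr (by omega), ?_⟩
    refine Finset.mem_filter.mpr ⟨hn, hXn, hnX, hX2X, hlow, hjm.trans hm2, ?_⟩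
    refine lt_of_le_of_lt (F_mono n (hjm.trans hm1)) (lt_of_lt_of_le h5 ?_)
    exact Real.exp_le_exp.mpr hexp
  -- the count
  have h1 : (E.card : ℝ) ≤ 2 * X2 + ((Nat.log 2 N : ℝ) + 1) ^ 2 * (N : ℝ) ^ (1 - δ) := by
    have h2 : E.card ≤ (Finset.range (2 * X2)).card +
        ∑ i ∈ Finset.range (Nat.log 2 N + 1), ∑ j ∈ Finset.range (Nat.log 2 N + 1), (Eij i j).card := by
      refine (Finset.card_le_card hcover).trans ((Finset.card_union_le _ _).trans ?_)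
      refine Nat.add_le_add_left ?_ _
      refine Finset.card_biUnion_le.trans (Finset.sum_le_sum fun i _ => ?_)
      exact Finset.card_biUnion_le
    have h3 : ((∑ i ∈ Finset.range (Nat.log 2 N + 1), ∑ j ∈ Finset.range (Nat.log 2 N + 1),
        (Eij i j).card : ℕ) : ℝ) ≤ ((Nat.log 2 N : ℝ) + 1) ^ 2 * (N : ℝ) ^ (1 - δ) := by
      push_cast
      calc _ ≤ ∑ i ∈ Finset.range (Nat.log 2 N + 1), ∑ j ∈ Finset.range (Nat.log 2 N + 1),
            (N : ℝ) ^ (1 - δ) :=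
            Finset.sum_le_sum fun i hi => Finset.sum_le_sum fun j hj => hcard i hi j hj
        _ = _ := by
          rw [Finset.sum_const, Finset.sum_const, Finset.card_range]
          simp only [nsmul_eq_mul]
          push_cast
          ring
    have h4 : (E.card : ℝ) ≤ ((Finset.range (2 * X2)).card : ℝ) +
        ((∑ i ∈ Finset.range (Nat.log 2 N + 1), ∑ j ∈ Finset.range (Nat.log 2 N + 1),
        (Eij i j).card : ℕ) : ℝ) := by exact_mod_cast h2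
    rw [Finset.card_range] at h4
    push_cast at h4
    push_cast at h3
    linarith
  have hlogN : (Nat.log 2 N : ℝ) + 1 ≤ (4 / (δ * Real.log 2) + 1) * (N : ℝ) ^ (δ / 4) := by
    have h2 : (Nat.log 2 N : ℝ) * Real.log 2 ≤ Real.log N := by
      have h3 : ((2 ^ (Nat.log 2 N) : ℕ) : ℝ) ≤ N := by
        exact_mod_cast Nat.pow_log_le_self 2 (by omega : N ≠ 0)
      have h4 := Real.log_le_log (by positivity) h3
      push_cast at h4
      rw [Real.log_pow] at h4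
      exact h4
    have h3 : Real.log N ≤ (N : ℝ) ^ (δ / 4) / (δ / 4) := Real.log_le_rpow_div hN0.le (by linarith)
    have h4 : (1 : ℝ) ≤ (N : ℝ) ^ (δ / 4) := Real.one_le_rpow hN1 (by linarith)
    have h5 : (Nat.log 2 N : ℝ) ≤ 4 / (δ * Real.log 2) * (N : ℝ) ^ (δ / 4) := by
      have h6 : (Nat.log 2 N : ℝ) ≤ (N : ℝ) ^ (δ / 4) / (δ / 4) / Real.log 2 := by
        rw [le_div_iff₀ hlog2]
        linarith
      have h7 : (N : ℝ) ^ (δ / 4) / (δ / 4) / Real.log 2 =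
          4 / (δ * Real.log 2) * (N : ℝ) ^ (δ / 4) := by
        field_simp
      linarith
    linarith
  have hpow : ((Nat.log 2 N : ℝ) + 1) ^ 2 * (N : ℝ) ^ (1 - δ) ≤
      (4 / (δ * Real.log 2) + 1) ^ 2 * (N : ℝ) ^ (1 - δ / 2) := by
    have h2 : (N : ℝ) ^ (1 - δ / 2) = ((N : ℝ) ^ (δ / 4)) ^ 2 * (N : ℝ) ^ (1 - δ) := by
      rw [pow_two, ← Real.rpow_add hN0, ← Real.rpow_add hN0]
      congr 1
      ring
    rw [h2]
    have h3 : ((Nat.log 2 N : ℝ) + 1) ^ 2 ≤ ((4 / (δ * Real.log 2) + 1) * (N : ℝ) ^ (δ / 4)) ^ 2 :=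
      pow_le_pow_left₀ (by positivity) hlogN 2
    calc ((Nat.log 2 N : ℝ) + 1) ^ 2 * (N : ℝ) ^ (1 - δ) ≤
          ((4 / (δ * Real.log 2) + 1) * (N : ℝ) ^ (δ / 4)) ^ 2 * (N : ℝ) ^ (1 - δ) :=
          mul_le_mul_of_nonneg_right h3 (by positivity)
      _ = _ := by ring
  have hX : (2 * X2 : ℝ) ≤ 2 * X2 * (N : ℝ) ^ (1 - δ / 2) := by
    have h2 : (1 : ℝ) ≤ (N : ℝ) ^ (1 - δ / 2) := Real.one_le_rpow hN1 (by linarith)
    have h3 : (0 : ℝ) ≤ 2 * X2 := by positivity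
    nlinarith
  calc (E.card : ℝ) ≤ 2 * X2 + ((Nat.log 2 N : ℝ) + 1) ^ 2 * (N : ℝ) ^ (1 - δ) := h1
    _ ≤ 2 * X2 * (N : ℝ) ^ (1 - δ / 2) +
        (4 / (δ * Real.log 2) + 1) ^ 2 * (N : ℝ) ^ (1 - δ / 2) := add_le_add hX hpow
    _ = _ := by ring

theorem fin (η : ℝ) (hη : 0 < η) : ∃ δ C : ℝ, 0 < δ ∧ 0 < C ∧ ∀ (N : ℕ) (E : Finset ℕ), 1 ≤ N →
    (∀ n ∈ E, 1 ≤ n ∧ n ≤ N ∧ ∃ k : ℕ, (n : ℝ) ^ η ≤ k ∧ k ≤ n ∧ F k n < Real.exp (k * (n : ℝ) ^ (-η))) →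
    (E.card : ℝ) ≤ C * (N : ℝ) ^ (1 - δ) := by
  obtain ⟨δ, C, h1, h2, h3⟩ := fin_one (η := min η 1) (lt_min hη one_pos) (min_le_right _ _)
  refine ⟨δ, C, h1, h2, fun N E hN hE => h3 N E hN fun n hn => ?_⟩
  obtain ⟨h4, h5, k, h6, h7, h8⟩ := hE n hn
  have hn1 : (1 : ℝ) ≤ n := by exact_mod_cast h4
  refine ⟨h4, h5, k, (Real.rpow_le_rpow_of_exponent_le hn1 (min_le_left _ _)).trans h6, h7,
    lt_of_lt_of_le h8 (Real.exp_le_exp.mpr ?_)⟩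
  refine mul_le_mul_of_nonneg_left ?_ (Nat.cast_nonneg _)
  exact Real.rpow_le_rpow_of_exponent_le hn1 (neg_le_neg (min_le_left _ _))

end Pool.Agent.TFE
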