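import Pool.Agent.TFE.Defs
import Pool.Agent.HYM.LSG

/-! # TFE/Spm: Gaussian mean square of `SP`

`HYM.large_sieve` with `a n = 1` for `n ∈ pr P`, `0` else, `W = √2 / s ≥ 1`; `∑' = finite sum`, `(n : ℂ)^(t I) = exp (i t log n)`,
`∑ (W + n) ≤ |pr P| (√2 / s + 4 P) ≤ 3 P (2 P + 4 P)`. -/

set_option autoImplicit false

open Finset MeasureTheory

namespace Pool.Agent.TFE

theorem sp_ms : ∃ C : ℝ, 0 < C ∧ ∀ (P : ℕ) (s : ℝ), 1 ≤ P → 0 < s → s ≤ 1 → 1 ≤ s * P →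
    Integrable (fun t : ℝ => Real.exp (-(s * t) ^ 2 / 2) * ‖SP P t‖ ^ 2) ∧
    ∫ t : ℝ, Real.exp (-(s * t) ^ 2 / 2) * ‖SP P t‖ ^ 2 ≤ C * (P : ℝ) ^ 2 := by
  obtain ⟨C, hC, h⟩ := HYM.large_sieve
  refine ⟨18 * C, by positivity, fun P s hP hs hs1 hsP => ?_⟩
  classical
  have hPr : (1 : ℝ) ≤ P := by exact_mod_cast hP
  set a : ℕ → ℂ := fun n => if n ∈ pr P then 1 else 0 with ha
  have hpos : ∀ n ∈ pr P, 0 < n := by
    intro n hn
    unfold pr at hn
    exact (mem_filter.1 hn).2.pos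
  have ha0 : a 0 = 0 := by
    rw [ha]
    simp only
    rw [if_neg]
    intro h0
    exact absurd (hpos 0 h0) (lt_irrefl 0)
  have hout : ∀ n ∉ pr P, a n = 0 := by
    intro n hn
    rw [ha]
    simp only
    rw [if_neg hn]
  have hin : ∀ n ∈ pr P, a n = 1 := by
    intro n hn
    rw [ha]
    simp only
    rw [if_pos hn]
  have s1 : Summable (fun n => ‖a n‖) := by
    refine summable_of_ne_finset_zero (s := pr P) fun n hn => ?_
    rw [hout n hn, norm_zero]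
  have s2 : Summable (fun n : ℕ => ‖a n‖ ^ 2 * n) := by
    refine summable_of_ne_finset_zero (s := pr P) fun n hn => ?_
    rw [hout n hn, norm_zero]; simp
  have hq2 : √2 * √2 = (2 : ℝ) := Real.mul_self_sqrt (by norm_num)
  have hq1 : (1 : ℝ) ≤ √2 := by rw [Real.one_le_sqrt]; norm_num
  have hq3 : √2 ≤ (2 : ℝ) := by nlinarith
  have hW : (1 : ℝ) ≤ √2 / s := by
    rw [le_div_iff₀ hs]; linarith
  obtain ⟨h1, h2⟩ := h a ha0 s1 s2 (√2 / s) hW
  have e1 : ∀ t : ℝ, Real.exp (-(t / (√2 / s)) ^ 2) = Real.exp (-(s * t) ^ 2 / 2) := by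
    intro t
    congr 1
    have : t / (√2 / s) = s * t / √2 := by field_simp
    rw [this, div_pow, Real.sq_sqrt (by norm_num : (0 : ℝ) ≤ 2)]
    ring
  have e2 : ∀ t : ℝ, ∑' n : ℕ, a n * (n : ℂ) ^ ((t : ℂ) * Complex.I) = SP P t := by
    intro t
    rw [tsum_eq_sum (s := pr P) fun n hn => by rw [hout n hn, zero_mul]]
    unfold SP
    refine sum_congr rfl fun n hn => ?_
    have hn0 : (n : ℂ) ≠ 0 := by
      have := hpos n hn
      exact_mod_cast this.ne'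
    rw [hin n hn, one_mul, Complex.cpow_def_of_ne_zero hn0, ← Complex.natCast_log]
    congr 1
    push_cast
    ring
  have e3 : (fun t : ℝ => Real.exp (-(t / (√2 / s)) ^ 2) *
      ‖∑' n : ℕ, a n * (n : ℂ) ^ ((t : ℂ) * Complex.I)‖ ^ 2) =
      fun t : ℝ => Real.exp (-(s * t) ^ 2 / 2) * ‖SP P t‖ ^ 2 := by
    funext t
    rw [e1 t, e2 t]
  rw [e3] at h1 h2
  refine ⟨h1, h2.trans ?_⟩
  have e4 : ∑' n : ℕ, ‖a n‖ ^ 2 * (√2 / s + n) ≤ 18 * (P : ℝ) ^ 2 := by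
    rw [tsum_eq_sum (s := pr P) fun n hn => by rw [hout n hn, norm_zero]; simp]
    have hW2 : √2 / s ≤ 2 * P := by
      rw [div_le_iff₀ hs]
      nlinarith
    have h3 : ∀ n ∈ pr P, ‖a n‖ ^ 2 * (√2 / s + n) ≤ 6 * (P : ℝ) := by
      intro n hn
      rw [hin n hn, norm_one, one_pow, one_mul]
      unfold pr at hn
      have h4 := (mem_Ioc.1 (mem_filter.1 hn).1).2
      have h5 : (n : ℝ) ≤ 4 * P := by exact_mod_cast h4
      linarith
    refine (sum_le_card_nsmul _ _ _ h3).trans ?_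
    have h6 : (pr P).card ≤ 3 * P := by
      unfold pr
      refine (card_filter_le _ _).trans ?_
      rw [Nat.card_Ioc]
      omega
    have h7 : ((pr P).card : ℝ) ≤ 3 * P := by exact_mod_cast h6
    rw [nsmul_eq_mul]
    nlinarith
  calc C * ∑' n : ℕ, ‖a n‖ ^ 2 * (√2 / s + n) ≤ C * (18 * (P : ℝ) ^ 2) :=
        mul_le_mul_of_nonneg_left e4 hC.le
    _ = 18 * C * (P : ℝ) ^ 2 := by ring

end Pool.Agent.TFE
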