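import Pool.Agent.TFE.Sab
import Pool.Agent.TFE.Spm

/-! # TFE/Gbd: the L2 bound

`s1 = A^(-1/2)`.  For `|t| ≤ A^(1/4)`: `0 ≤ e^{-(st)²/2} - e^{-(s1 t)²/2} ≤ (s1 t)²/2 ≤ A^(-1/2)/2`, `‖SA‖ ≤ 31 A`, `‖SP‖ ≤ 3 P`, length
`2 A^(1/4)`.  For `|t| > A^(1/4)`: `gf ≤ e^{-(st)²}`; if `|t| ≤ A^(2b+2)` then `‖SA‖ ≤ C A^(1-c)` (`sa_bound` with `s = 1/4`,
`B = 2b+2`), if `|t| > A^(2b+2)` then `e^{-(st)²/2} (31 A)² ≤ C'` because `s ≥ 1/P ≥ A^(-b)`; so
`gf ‖SA‖² ‖SP‖² ≤ C'' A^(2-2c) e^{-(st)²/2} ‖SP‖²` and `sp_ms`.  (`A = 1` is harmless.) -/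

set_option autoImplicit false

open Finset MeasureTheory

namespace Pool.Agent.TFE

private lemma gbd_SA (A : ℕ) (t : ℝ) : ‖SA A t‖ ≤ 31 * A := by
  unfold SA
  refine (norm_sum_le _ _).trans ?_
  simp only [Complex.norm_exp_ofReal_mul_I, Finset.sum_const, Nat.card_Ico, nsmul_eq_mul, mul_one]
  have : 32 * A - A = 31 * A := by omega
  rw [this]
  push_cast
  exact le_rfl

private lemma gbd_SP (P : ℕ) (t : ℝ) : ‖SP P t‖ ≤ 3 * P := by
  unfold SP
  refine (norm_sum_le _ _).trans ?_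
  simp only [Complex.norm_exp_ofReal_mul_I, Finset.sum_const, nsmul_eq_mul, mul_one]
  have h1 : (pr P).card ≤ 3 * P := by
    unfold pr
    refine (Finset.card_filter_le _ _).trans ?_
    rw [Nat.card_Ioc]
    omega
  exact_mod_cast h1

private lemma gbd_diff {s s1 : ℝ} (hs : 0 ≤ s) (hs1 : s ≤ s1) (t : ℝ) :
    0 ≤ Real.exp (-(s * t) ^ 2 / 2) - Real.exp (-(s1 * t) ^ 2 / 2) ∧
      Real.exp (-(s * t) ^ 2 / 2) - Real.exp (-(s1 * t) ^ 2 / 2) ≤ (s1 * t) ^ 2 / 2 ∧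
      Real.exp (-(s * t) ^ 2 / 2) - Real.exp (-(s1 * t) ^ 2 / 2) ≤
        Real.exp (-(s * t) ^ 2 / 2) := by
  have h1 : (s * t) ^ 2 ≤ (s1 * t) ^ 2 := by
    rw [mul_pow, mul_pow]
    exact mul_le_mul_of_nonneg_right (pow_le_pow_left₀ hs hs1 2) (sq_nonneg t)
  refine ⟨?_, ?_, ?_⟩
  · rw [sub_nonneg]
    exact Real.exp_le_exp.2 (by linarith)
  · have h2 : Real.exp (-(s * t) ^ 2 / 2) ≤ 1 := by
      rw [Real.exp_le_one_iff]
      have := sq_nonneg (s * t)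
      linarith
    have h3 := Real.add_one_le_exp (-(s1 * t) ^ 2 / 2)
    linarith
  · have := Real.exp_pos (-(s1 * t) ^ 2 / 2)
    linarith

theorem g_bound (b : ℝ) (hb : 1 ≤ b) : ∃ c C : ℝ, 0 < c ∧ 0 < C ∧ ∀ (A P : ℕ) (s : ℝ), 1 ≤ A → 1 ≤ P →
    (P : ℝ) ≤ (A : ℝ) ^ b → 0 < s → s ≤ (A : ℝ) ^ (-(1 / 2) : ℝ) → 1 ≤ s * P →
    ∫ t : ℝ, gf s ((A : ℝ) ^ (-(1 / 2) : ℝ)) t * ‖SA A t * SP P t‖ ^ 2 ≤
      C * ((A : ℝ) * P) ^ 2 * (A : ℝ) ^ (-c) := by
  obtain ⟨c, CS, hc, hc4, hCS, hSA⟩ := sa_bound (1 / 4) (2 * b + 2) (by norm_num) (by norm_num)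
    (by linarith)
  obtain ⟨CP, hCP, hSP⟩ := sp_ms
  refine ⟨2 * c, 4325 + (CS ^ 2 + 961) * CP, by linarith, by positivity, ?_⟩
  intro A P s hA hP hPA hs0 hs1 hsP
  have hA1 : (1 : ℝ) ≤ A := by exact_mod_cast hA
  have hA0 : (0 : ℝ) < A := by linarith
  have hP0 : (0 : ℝ) < P := by exact_mod_cast hP
  obtain ⟨s1, hs1d⟩ : ∃ s1 : ℝ, s1 = (A : ℝ) ^ (-(1 / 2) : ℝ) := ⟨_, rfl⟩
  rw [← hs1d] at hs1 ⊢
  have hs11 : s1 ≤ 1 := by
    rw [hs1d]
    exact Real.rpow_le_one_of_one_le_of_nonpos hA1 (by norm_num)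
  have hs10 : 0 < s1 := hs0.trans_le hs1
  have hs1sq : s1 ^ 2 = (A : ℝ)⁻¹ := by
    rw [hs1d, ← Real.rpow_natCast, ← Real.rpow_mul hA0.le]
    norm_num
    exact Real.rpow_neg_one _
  have hs : s ≤ 1 := hs1.trans hs11
  obtain ⟨hint, hval⟩ := hSP P s hP hs0 hs hsP
  set Q : ℝ := (A : ℝ) ^ (1 / 4 : ℝ) with hQ
  have hQ0 : 0 < Q := Real.rpow_pos_of_pos hA0 _
  have hQ2 : Q ^ 4 = A := by
    rw [hQ, ← Real.rpow_natCast, ← Real.rpow_mul hA0.le]
    norm_num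
  set W : ℝ := (A : ℝ) ^ (2 - 2 * c) with hW
  have hW1 : 1 ≤ W := Real.one_le_rpow hA1 (by linarith)
  set K : ℝ := (A : ℝ)⁻¹ / 4 * (31 * A) ^ 2 * (3 * P) ^ 2 with hK
  have hK0 : 0 ≤ K := by positivity
  have key : ∀ t : ℝ, gf s s1 t * ‖SA A t * SP P t‖ ^ 2 ≤
      (Set.Icc (-Q) Q).indicator (fun _ => K) t +
        (CS ^ 2 + 961) * W * (Real.exp (-(s * t) ^ 2 / 2) * ‖SP P t‖ ^ 2) := by
    intro t
    obtain ⟨d0, d1, d2⟩ := gbd_diff hs0.le hs1 t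
    have hg : gf s s1 t = (Real.exp (-(s * t) ^ 2 / 2) - Real.exp (-(s1 * t) ^ 2 / 2)) ^ 2 := rfl
    set D : ℝ := Real.exp (-(s * t) ^ 2 / 2) - Real.exp (-(s1 * t) ^ 2 / 2) with hD
    set E : ℝ := Real.exp (-(s * t) ^ 2 / 2) with hE
    have hE0 : 0 < E := Real.exp_pos _
    have hE1 : E ≤ 1 := by
      rw [hE, Real.exp_le_one_iff]
      have := sq_nonneg (s * t)
      linarith
    rw [hg, norm_mul, mul_pow]
    have nA := gbd_SA A t
    have nP := gbd_SP P t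
    have nA0 := norm_nonneg (SA A t)
    have nP0 := norm_nonneg (SP P t)
    by_cases ht : |t| ≤ Q
    · -- small `t`
      have hmem : t ∈ Set.Icc (-Q) Q := by
        rw [Set.mem_Icc]
        exact abs_le.1 ht
      rw [Set.indicator_of_mem hmem]
      have h1 : D ^ 2 ≤ (A : ℝ)⁻¹ / 4 := by
        have h2 : (s1 * t) ^ 2 ≤ (A : ℝ)⁻¹ * Q ^ 2 := by
          rw [mul_pow, hs1sq]
          apply mul_le_mul_of_nonneg_left _ (by positivity)
          rw [← sq_abs]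
          exact pow_le_pow_left₀ (abs_nonneg t) ht 2
        have h3 : D ≤ (A : ℝ)⁻¹ * Q ^ 2 / 2 := by linarith
        have h4 : D ^ 2 ≤ ((A : ℝ)⁻¹ * Q ^ 2 / 2) ^ 2 := pow_le_pow_left₀ d0 h3 2
        have h5 : ((A : ℝ)⁻¹ * Q ^ 2 / 2) ^ 2 = (A : ℝ)⁻¹ / 4 := by
          have : ((A : ℝ)⁻¹ * Q ^ 2 / 2) ^ 2 = (A : ℝ)⁻¹ ^ 2 * Q ^ 4 / 4 := by ring
          rw [this, hQ2]
          field_simp
        linarith
      have h6 : ‖SA A t‖ ^ 2 ≤ (31 * A) ^ 2 := pow_le_pow_left₀ nA0 nA 2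
      have h7 : ‖SP P t‖ ^ 2 ≤ (3 * P) ^ 2 := pow_le_pow_left₀ nP0 nP 2
      have h8 : D ^ 2 * (‖SA A t‖ ^ 2 * ‖SP P t‖ ^ 2) ≤ K := by
        rw [hK, mul_assoc]
        exact mul_le_mul h1 (mul_le_mul h6 h7 (by positivity) (by positivity)) (by positivity)
          (by positivity)
      have h9 : 0 ≤ (CS ^ 2 + 961) * W * (E * ‖SP P t‖ ^ 2) := by positivity
      linarith
    · -- large `t`
      have ht' : Q < |t| := not_le.1 ht
      have h0 : 0 ≤ (Set.Icc (-Q) Q).indicator (fun _ => K) t :=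
        Set.indicator_nonneg (fun _ _ => hK0) t
      have hDE : D ^ 2 ≤ E * E := by
        rw [sq]
        exact mul_le_mul d2 d2 d0 hE0.le
      have hmain : E * ‖SA A t‖ ^ 2 ≤ (CS ^ 2 + 961) * W := by
        by_cases ht2 : |t| ≤ (A : ℝ) ^ (2 * b + 2)
        · have h1 := hSA A hA t ht'.le ht2
          have h2 : ‖SA A t‖ ^ 2 ≤ (CS * (A : ℝ) ^ (1 - c)) ^ 2 := pow_le_pow_left₀ nA0 h1 2
          have h3 : (CS * (A : ℝ) ^ (1 - c)) ^ 2 = CS ^ 2 * W := by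
            rw [mul_pow, hW, ← Real.rpow_natCast ((A : ℝ) ^ (1 - c)), ← Real.rpow_mul hA0.le]
            congr 2
            push_cast
            ring
          have h4 : E * ‖SA A t‖ ^ 2 ≤ 1 * (CS ^ 2 * W) := by
            rw [← h3]
            exact mul_le_mul hE1 h2 (by positivity) zero_le_one
          have h5 : 0 ≤ 961 * W := by positivity
          linarith
        · have ht3 : (A : ℝ) ^ (2 * b + 2) < |t| := not_le.1 ht2
          -- `|s t| ≥ A`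
          have h1 : (A : ℝ) ≤ |s * t| := by
            have e1 : (A : ℝ) ^ (2 * b + 2) = (A : ℝ) ^ b * (A : ℝ) ^ (b + 2) := by
              rw [← Real.rpow_add hA0]
              congr 1
              ring
            have e2 : (A : ℝ) ≤ (A : ℝ) ^ (b + 2) := by
              conv_lhs => rw [← Real.rpow_one (A : ℝ)]
              exact Real.rpow_le_rpow_of_exponent_le hA1 (by linarith)
            have e3 : 1 ≤ s * (A : ℝ) ^ b := hsP.trans (mul_le_mul_of_nonneg_left hPA hs0.le)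
            have e4 : s * (A : ℝ) ^ (2 * b + 2) ≤ |s * t| := by
              rw [abs_mul, abs_of_pos hs0]
              exact mul_le_mul_of_nonneg_left ht3.le hs0.le
            calc (A : ℝ) ≤ 1 * (A : ℝ) ^ (b + 2) := by rw [one_mul]; exact e2
              _ ≤ s * (A : ℝ) ^ b * (A : ℝ) ^ (b + 2) :=
                  mul_le_mul_of_nonneg_right e3 (by positivity)
              _ = s * (A : ℝ) ^ (2 * b + 2) := by rw [e1]; ring
              _ ≤ |s * t| := e4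
          have h2 : (A : ℝ) ^ 2 ≤ (s * t) ^ 2 := by
            rw [← sq_abs (s * t)]
            exact pow_le_pow_left₀ hA0.le h1 2
          have h3 : E ≤ Real.exp (-((A : ℝ) ^ 2 / 2)) := by
            rw [hE]
            apply Real.exp_le_exp.2
            linarith
          have h4 : Real.exp (-((A : ℝ) ^ 2 / 2)) * (A : ℝ) ^ 2 ≤ 1 := by
            have e1 := Real.add_one_le_exp ((A : ℝ) ^ 2 / 2 - 1)
            have e2 : (A : ℝ) ^ 2 / 2 ≤ Real.exp ((A : ℝ) ^ 2 / 2 - 1) := by linarith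
            have e3 : Real.exp ((A : ℝ) ^ 2 / 2 - 1) =
                Real.exp ((A : ℝ) ^ 2 / 2) * Real.exp (-1) := by
              rw [← Real.exp_add]
              rfl
            have e4 : Real.exp (-1 : ℝ) ≤ 1 / 2 := by
              rw [Real.exp_neg, inv_eq_one_div]
              apply one_div_le_one_div_of_le (by norm_num)
              have := Real.add_one_le_exp (1 : ℝ)
              linarith
            have e5 : (A : ℝ) ^ 2 / 2 ≤ Real.exp ((A : ℝ) ^ 2 / 2) * (1 / 2) := by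
              rw [e3] at e2
              exact e2.trans (mul_le_mul_of_nonneg_left e4 (Real.exp_pos _).le)
            rw [Real.exp_neg, inv_mul_le_iff₀ (Real.exp_pos _)]
            linarith
          have h5 : ‖SA A t‖ ^ 2 ≤ 961 * (A : ℝ) ^ 2 := by
            have := pow_le_pow_left₀ nA0 nA 2
            linarith [this, (by ring : (31 * (A : ℝ)) ^ 2 = 961 * (A : ℝ) ^ 2)]
          have h6 : E * ‖SA A t‖ ^ 2 ≤
              Real.exp (-((A : ℝ) ^ 2 / 2)) * (961 * (A : ℝ) ^ 2) :=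
            mul_le_mul h3 h5 (by positivity) (Real.exp_pos _).le
          have h7 : Real.exp (-((A : ℝ) ^ 2 / 2)) * (961 * (A : ℝ) ^ 2) ≤ 961 := by
            have : Real.exp (-((A : ℝ) ^ 2 / 2)) * (961 * (A : ℝ) ^ 2) =
                961 * (Real.exp (-((A : ℝ) ^ 2 / 2)) * (A : ℝ) ^ 2) := by ring
            rw [this]
            linarith
          have h8 : 961 * 1 ≤ 961 * W := mul_le_mul_of_nonneg_left hW1 (by norm_num)
          have h9 : 0 ≤ CS ^ 2 * W := by positivity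
          linarith
      calc D ^ 2 * (‖SA A t‖ ^ 2 * ‖SP P t‖ ^ 2)
          ≤ E * E * (‖SA A t‖ ^ 2 * ‖SP P t‖ ^ 2) :=
            mul_le_mul_of_nonneg_right hDE (by positivity)
        _ = (E * ‖SA A t‖ ^ 2) * (E * ‖SP P t‖ ^ 2) := by ring
        _ ≤ (CS ^ 2 + 961) * W * (E * ‖SP P t‖ ^ 2) :=
            mul_le_mul_of_nonneg_right hmain (by positivity)
        _ ≤ _ := by linarith
  have hI1 : Integrable ((Set.Icc (-Q) Q).indicator (fun _ : ℝ => K)) := by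
    rw [integrable_indicator_iff measurableSet_Icc]
    exact integrableOn_const (by simp)
  have hI2 : Integrable (fun t : ℝ =>
      (CS ^ 2 + 961) * W * (Real.exp (-(s * t) ^ 2 / 2) * ‖SP P t‖ ^ 2)) := hint.const_mul _
  have hle : ∫ t : ℝ, gf s s1 t * ‖SA A t * SP P t‖ ^ 2 ≤
      ∫ t : ℝ, ((Set.Icc (-Q) Q).indicator (fun _ => K) t +
        (CS ^ 2 + 961) * W * (Real.exp (-(s * t) ^ 2 / 2) * ‖SP P t‖ ^ 2)) := by
    refine integral_mono_of_nonneg (Filter.Eventually.of_forall fun t => ?_) (hI1.add hI2)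
      (Filter.Eventually.of_forall key)
    exact mul_nonneg (sq_nonneg _) (sq_nonneg _)
  refine hle.trans ?_
  rw [integral_add hI1 hI2, integral_const_mul, integral_indicator measurableSet_Icc,
    setIntegral_const, Real.volume_real_Icc_of_le (by linarith), smul_eq_mul]
  have hW' : ((A : ℝ) * P) ^ 2 * (A : ℝ) ^ (-(2 * c)) = (P : ℝ) ^ 2 * W := by
    have : W = (A : ℝ) ^ 2 * (A : ℝ) ^ (-(2 * c)) := by
      rw [hW, ← Real.rpow_natCast, ← Real.rpow_add hA0]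
      congr 1
    rw [this]
    ring
  have hR : (4325 + (CS ^ 2 + 961) * CP) * ((A : ℝ) * P) ^ 2 * (A : ℝ) ^ (-(2 * c)) =
      (4325 + (CS ^ 2 + 961) * CP) * ((P : ℝ) ^ 2 * W) := by
    rw [mul_assoc, hW']
  rw [hR]
  have h1 : (Q - -Q) * K ≤ 4325 * ((P : ℝ) ^ 2 * W) := by
    have e1 : (Q - -Q) * K = 4324.5 * ((P : ℝ) ^ 2 * (Q * A)) := by
      rw [hK]
      field_simp
      ring
    have e2 : Q * A ≤ W := by
      have e3 : Q * A = (A : ℝ) ^ (1 / 4 + 1 : ℝ) := by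
        rw [Real.rpow_add hA0, Real.rpow_one]
      rw [e3, hW]
      exact Real.rpow_le_rpow_of_exponent_le hA1 (by linarith)
    have e4 : (P : ℝ) ^ 2 * (Q * A) ≤ (P : ℝ) ^ 2 * W :=
      mul_le_mul_of_nonneg_left e2 (by positivity)
    have e5 : 0 ≤ (P : ℝ) ^ 2 * W := by positivity
    rw [e1]
    linarith
  have h2 : (CS ^ 2 + 961) * W * ∫ t : ℝ, Real.exp (-(s * t) ^ 2 / 2) * ‖SP P t‖ ^ 2 ≤
      (CS ^ 2 + 961) * CP * ((P : ℝ) ^ 2 * W) := by
    calc (CS ^ 2 + 961) * W * ∫ t : ℝ, Real.exp (-(s * t) ^ 2 / 2) * ‖SP P t‖ ^ 2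
        ≤ (CS ^ 2 + 961) * W * (CP * (P : ℝ) ^ 2) :=
          mul_le_mul_of_nonneg_left hval (by positivity)
      _ = _ := by ring
  calc (Q - -Q) * K + (CS ^ 2 + 961) * W * ∫ t : ℝ, Real.exp (-(s * t) ^ 2 / 2) * ‖SP P t‖ ^ 2
      ≤ 4325 * ((P : ℝ) ^ 2 * W) + (CS ^ 2 + 961) * CP * ((P : ℝ) ^ 2 * W) := add_le_add h1 h2
    _ = _ := by ring

end Pool.Agent.TFE
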