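import Pool.Agent.TFE.Defs
import Pool.Agent.TFE.Blk

/-! # TFE/Sab: the bound for `SA`

`[A, 32 A)` is the union of the blocks `[N, 2N)`, `N = 2^j A`, `j < 5`.  `blk` with `s/6`, `B`
(`N^(s/6) ≤ (32 A)^(s/6) ≤ A^s ≤ |t|` for `A ≥ 2`; `A = 1` trivially). -/

set_option autoImplicit false

open Finset

namespace Pool.Agent.TFE

theorem sa_bound (s B : ℝ) (hs : 0 < s) (hs1 : s ≤ 1 / 2) (hB : 1 ≤ B) :
    ∃ c C : ℝ, 0 < c ∧ c ≤ 1 / 4 ∧ 0 < C ∧ ∀ A : ℕ, 1 ≤ A → ∀ t : ℝ,
      (A : ℝ) ^ s ≤ |t| → |t| ≤ (A : ℝ) ^ B → ‖SA A t‖ ≤ C * (A : ℝ) ^ (1 - c) := by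
  obtain ⟨c, C, hc, hc4, hC, H⟩ := blk (s / 6) B (by linarith) (by linarith) hB
  refine ⟨c, 160 * C + 31, hc, hc4, by linarith, fun A hA t h1 h2 => ?_⟩
  have hA0 : (0 : ℝ) < A := by exact_mod_cast hA
  have hA1 : (1 : ℝ) ≤ A := by exact_mod_cast hA
  have hP : (0 : ℝ) < (A : ℝ) ^ (1 - c) := Real.rpow_pos_of_pos hA0 _
  rcases Nat.lt_or_ge A 2 with h | h
  · -- `A = 1`
    have hA' : A = 1 := by omega
    subst hA'
    have h3 : ‖SA 1 t‖ ≤ 31 := by
      unfold SA
      refine (norm_sum_le _ _).trans ?_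
      have h4 : ∀ a ∈ Ico 1 (32 * 1),
          ‖Complex.exp (((t * Real.log (a : ℕ) : ℝ) : ℂ) * Complex.I)‖ = 1 := fun a _ =>
        Complex.norm_exp_ofReal_mul_I _
      rw [Finset.sum_congr rfl h4]
      simp
    have h5 : ((1 : ℕ) : ℝ) ^ (1 - c) = 1 := by simp
    rw [h5]
    linarith
  · -- `A ≥ 2`
    have hA2 : (2 : ℝ) ≤ A := by exact_mod_cast h
    have hblock : ∀ N : ℕ, A ≤ N → N ≤ 32 * A →
        ‖∑ n ∈ Ico N (N + N), Complex.exp (((t * Real.log n : ℝ) : ℂ) * Complex.I)‖ ≤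
          32 * C * (A : ℝ) ^ (1 - c) := by
      intro N hN1 hN2
      have hN0 : (0 : ℝ) ≤ N := Nat.cast_nonneg N
      have hAN : (A : ℝ) ≤ N := by exact_mod_cast hN1
      have hN32 : (N : ℝ) ≤ 32 * A := by exact_mod_cast hN2
      have hN6 : (N : ℝ) ≤ (A : ℝ) ^ (6 : ℕ) := by
        refine hN32.trans ?_
        have h3 : (32 : ℝ) ≤ (A : ℝ) ^ (5 : ℕ) := by
          calc (32 : ℝ) = 2 ^ (5 : ℕ) := by norm_num
            _ ≤ (A : ℝ) ^ (5 : ℕ) := pow_le_pow_left₀ (by norm_num) hA2 5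
        calc 32 * (A : ℝ) ≤ (A : ℝ) ^ (5 : ℕ) * A := mul_le_mul_of_nonneg_right h3 hA0.le
          _ = (A : ℝ) ^ (6 : ℕ) := by ring
      have hl : (N : ℝ) ^ (s / 6) ≤ |t| := by
        calc (N : ℝ) ^ (s / 6) ≤ ((A : ℝ) ^ (6 : ℕ)) ^ (s / 6) :=
              Real.rpow_le_rpow hN0 hN6 (by linarith)
          _ = (A : ℝ) ^ s := by
              rw [← Real.rpow_natCast, ← Real.rpow_mul hA0.le]
              congr 1
              push_cast
              ring
          _ ≤ |t| := h1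
      have hu : |t| ≤ (N : ℝ) ^ B := h2.trans (Real.rpow_le_rpow hA0.le hAN (by linarith))
      refine (H N N (hA.trans hN1) le_rfl t hl hu).trans ?_
      have h4 : (N : ℝ) ^ (1 - c) ≤ 32 * (A : ℝ) ^ (1 - c) := by
        calc (N : ℝ) ^ (1 - c) ≤ (32 * (A : ℝ)) ^ (1 - c) :=
              Real.rpow_le_rpow hN0 hN32 (by linarith)
          _ = (32 : ℝ) ^ (1 - c) * (A : ℝ) ^ (1 - c) := Real.mul_rpow (by norm_num) hA0.le
          _ ≤ 32 * (A : ℝ) ^ (1 - c) := by
              refine mul_le_mul_of_nonneg_right ?_ hP.le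
              calc (32 : ℝ) ^ (1 - c) ≤ (32 : ℝ) ^ (1 : ℝ) :=
                    Real.rpow_le_rpow_of_exponent_le (by norm_num) (by linarith)
                _ = 32 := Real.rpow_one _
      calc C * (N : ℝ) ^ (1 - c) ≤ C * (32 * (A : ℝ) ^ (1 - c)) :=
            mul_le_mul_of_nonneg_left h4 hC.le
        _ = 32 * C * (A : ℝ) ^ (1 - c) := by ring
    have hsplit : SA A t =
        (((∑ n ∈ Ico A (A + A), Complex.exp (((t * Real.log n : ℝ) : ℂ) * Complex.I) +
          ∑ n ∈ Ico (2 * A) (2 * A + 2 * A),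
            Complex.exp (((t * Real.log n : ℝ) : ℂ) * Complex.I)) +
          ∑ n ∈ Ico (4 * A) (4 * A + 4 * A),
            Complex.exp (((t * Real.log n : ℝ) : ℂ) * Complex.I)) +
          ∑ n ∈ Ico (8 * A) (8 * A + 8 * A),
            Complex.exp (((t * Real.log n : ℝ) : ℂ) * Complex.I)) +
          ∑ n ∈ Ico (16 * A) (16 * A + 16 * A),
            Complex.exp (((t * Real.log n : ℝ) : ℂ) * Complex.I) := by
      rw [show A + A = 2 * A by ring, show 2 * A + 2 * A = 4 * A by ring,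
        show 4 * A + 4 * A = 8 * A by ring, show 8 * A + 8 * A = 16 * A by ring,
        show 16 * A + 16 * A = 32 * A by ring,
        Finset.sum_Ico_consecutive _ (by omega) (by omega),
        Finset.sum_Ico_consecutive _ (by omega) (by omega),
        Finset.sum_Ico_consecutive _ (by omega) (by omega),
        Finset.sum_Ico_consecutive _ (by omega) (by omega)]
      rfl
    have b1 := hblock A le_rfl (by omega)
    have b2 := hblock (2 * A) (by omega) (by omega)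
    have b3 := hblock (4 * A) (by omega) (by omega)
    have b4 := hblock (8 * A) (by omega) (by omega)
    have b5 := hblock (16 * A) (by omega) (by omega)
    rw [hsplit]
    refine (norm_add_le_of_le (norm_add_le_of_le (norm_add_le_of_le (norm_add_le_of_le b1 b2)
      b3) b4) b5).trans ?_
    nlinarith

end Pool.Agent.TFE
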